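import Pool.Agent.W605.RT.PAR4
import Pool.Agent.W261.RT.Iso

/-!
# Parametrisation of the curves with a subgroup `Z/2 x Z/8`
-/

set_option autoImplicit false

namespace Pool.Agent.V7H54.C8

open Finset Pool.Agent.W262.RK Pool.Agent.W307.RT WeierstrassCurve.Affine
open Pool.Agent.W605.RT (sh_eq sh_negY two_tors int_root int_sqrt root_sq Rel rel_unique rel_bound)

/-- the forms for `Z/2 x Z/8` -/
def M8 (a b : ℤ) : ℤ := (2 * a * b) ^ 4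

/-- the forms for `Z/2 x Z/8` -/
def N8 (a b : ℤ) : ℤ := (a ^ 2 - b ^ 2) ^ 4

/-- coordinates of the double of a point -/
theorem dbl {A B : ℤ} {P : (Sh A B).toAffine.Point} (h : P + P ≠ 0) :
    ∃ (x y : ℚ) (hxy : (Sh A B).toAffine.Nonsingular x y), P = Point.some x y hxy ∧ y ≠ 0 ∧
      y ^ 2 = x ^ 3 + A * x + B ∧ ∃ (x' y' : ℚ) (h' : (Sh A B).toAffine.Nonsingular x' y'),
      P + P = Point.some x' y' h' ∧ x' = ((3 * x ^ 2 + A) / (2 * y)) ^ 2 - 2 * x := by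
  rcases P with _ | ⟨x, y, hxy⟩
  · exact absurd (add_zero (0 : (Sh A B).toAffine.Point)) h
  · have hxy' := sh_eq.mp hxy.1
    by_cases hy : y = (Sh A B).toAffine.negY x y
    · exact absurd (Point.add_self_of_Y_eq hy) h
    · have hd := Point.add_self_of_Y_ne (h₁ := hxy) hy
      have hy' := hy
      rw [sh_negY] at hy'
      have hy0 : y ≠ 0 := by
        intro h0
        apply hy'
        rw [h0]; simp
      refine ⟨x, y, hxy, rfl, hy0, hxy', _, _, _, hd, ?_⟩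
      rw [WeierstrassCurve.Affine.addX, WeierstrassCurve.Affine.slope_of_Y_ne rfl hy, sh_negY]
      simp only [Sh]
      ring

theorem eight_tors {A B : ℤ} {P Q : (Sh A B).toAffine.Point} (hP : addOrderOf P = 8)
    (hQ : addOrderOf Q = 2) (hPQ : Q ∉ AddSubgroup.zmultiples P) :
    ∃ x8 y8 x y e1 e2 : ℚ, y8 ≠ 0 ∧ y8 ^ 2 = x8 ^ 3 + A * x8 + B ∧
      x = ((3 * x8 ^ 2 + A) / (2 * y8)) ^ 2 - 2 * x8 ∧ y ≠ 0 ∧ y ^ 2 = x ^ 3 + A * x + B ∧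
      e1 ^ 3 + A * e1 + B = 0 ∧ e2 ^ 3 + A * e2 + B = 0 ∧ e1 ≠ e2 ∧
      e1 = ((3 * x ^ 2 + A) / (2 * y)) ^ 2 - 2 * x := by
  have h4 : addOrderOf (P + P) = 4 := by
    rw [← two_nsmul, addOrderOf_nsmul' P two_ne_zero, hP]
    norm_num
  have h2 : addOrderOf ((P + P) + (P + P)) = 2 := by
    rw [← two_nsmul (P + P), addOrderOf_nsmul' _ two_ne_zero, h4]
    norm_num
  have n4 : P + P ≠ 0 := by
    intro h
    rw [h, addOrderOf_zero] at h4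
    norm_num at h4
  have n2 : (P + P) + (P + P) ≠ 0 := by
    intro h
    rw [h, addOrderOf_zero] at h2
    norm_num at h2
  obtain ⟨x8, y8, hxy8, hP8, hy8, he8, x4, y4, h4', hP4, hx4⟩ := dbl n4
  obtain ⟨x, y, hxy, hPx, hy, hxy', x', y', h', hP2, hx'⟩ := dbl n2
  obtain ⟨e1, h1, hPP⟩ := two_tors h2
  obtain ⟨e2, h2', hQ'⟩ := two_tors hQ
  have hx : x = x4 := by
    rw [hP4] at hPx
    exact ((Point.some.inj hPx).1).symm
  have hx1 : x' = e1 := by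
    rw [hPP] at hP2
    exact ((Point.some.inj hP2).1).symm
  have hne : e1 ≠ e2 := by
    intro h
    subst h
    apply hPQ
    rw [hQ', ← hPP]
    have e : (P + P) + (P + P) = (4 : ℕ) • P := by
      rw [show (4 : ℕ) = 2 * 2 by norm_num, mul_nsmul, two_nsmul, two_nsmul]
    rw [e]
    exact AddSubgroup.nsmul_mem_zmultiples P 4
  have r1 := sh_eq.mp h1.1
  have r2 := sh_eq.mp h2'.1
  exact ⟨x8, y8, x, y, e1, e2, hy8, he8, by rw [hx]; exact hx4, hy, hxy', by linarith,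
    by linarith, hne, by rw [← hx1]; exact hx'⟩

/-- `Rel` depends only on the squares of the parameters -/
theorem rel_congr {c : ℤ × ℤ} {a b a' b' : ℤ} (h : Rel c (a, b))
    (hs : (a ^ 2 = a' ^ 2 ∧ b ^ 2 = b' ^ 2) ∨ (a ^ 2 = b' ^ 2 ∧ b ^ 2 = a' ^ 2)) :
    Rel c (a', b') := by
  obtain ⟨g, e, hg, hco, ha0, hb0, hne, he, hA, hB⟩ := h
  change IsCoprime a b at hco
  change a ≠ 0 at ha0
  change b ≠ 0 at hb0
  change a ^ 2 ≠ b ^ 2 at hne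
  change 3 * e = g ^ 2 * (a ^ 2 + b ^ 2) at he
  change 3 * c.1 = -(g ^ 4 * (a ^ 4 - a ^ 2 * b ^ 2 + b ^ 4)) at hA
  change 27 * c.2 = g ^ 6 * ((a ^ 2 + b ^ 2) * (2 * a ^ 2 - b ^ 2) * (a ^ 2 - 2 * b ^ 2)) at hB
  have hco2 : IsCoprime (a ^ 2) (b ^ 2) := hco.pow
  have ha2 : a ^ 2 ≠ 0 := pow_ne_zero 2 ha0
  have hb2 : b ^ 2 ≠ 0 := pow_ne_zero 2 hb0
  have e4 : a ^ 4 = (a ^ 2) ^ 2 := by ring
  have e4' : b ^ 4 = (b ^ 2) ^ 2 := by ring
  rw [e4, e4'] at hA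
  rcases hs with ⟨h1, h2⟩ | ⟨h1, h2⟩
  · rw [h1, h2] at hco2 hne he hA hB
    rw [h1] at ha2
    rw [h2] at hb2
    refine ⟨g, e, hg, ?_, ?_, ?_, hne, he, ?_, hB⟩
    · exact (IsCoprime.pow_iff (by norm_num) (by norm_num)).1 hco2
    · exact fun h => ha2 (by change a' = 0 at h; rw [h]; norm_num)
    · exact fun h => hb2 (by change b' = 0 at h; rw [h]; norm_num)
    · change 3 * c.1 = -(g ^ 4 * (a' ^ 4 - a' ^ 2 * b' ^ 2 + b' ^ 4))
      rw [hA]; ring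
  · rw [h1, h2] at hco2 hne he hA hB
    rw [h1] at ha2
    rw [h2] at hb2
    refine ⟨g, e, hg, ?_, ?_, ?_, hne.symm, ?_, ?_, ?_⟩
    · exact ((IsCoprime.pow_iff (by norm_num) (by norm_num)).1 hco2).symm
    · exact fun h => hb2 (by change a' = 0 at h; rw [h]; norm_num)
    · exact fun h => ha2 (by change b' = 0 at h; rw [h]; norm_num)
    · change 3 * e = g ^ 2 * (a' ^ 2 + b' ^ 2)
      rw [he]; ring
    · change 3 * c.1 = -(g ^ 4 * (a' ^ 4 - a' ^ 2 * b' ^ 2 + b' ^ 4))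
      rw [hA]; ring
    · change 27 * c.2 = g ^ 6 * ((a' ^ 2 + b' ^ 2) * (2 * a' ^ 2 - b' ^ 2) * (a' ^ 2 - 2 * b' ^ 2))
      rw [hB]; ring

/-- Pythagorean triples of square roots, positive case -/
theorem pyth_pos {a b r s : ℤ} (hab : IsCoprime a b) (ha : 0 < a) (hb : 0 < b)
    (h1 : a * b = r ^ 2) (h2 : a * (a + b) = s ^ 2) : ∃ p q : ℤ, IsCoprime p q ∧
      ((a = (2 * p * q) ^ 2 ∧ b = (p ^ 2 - q ^ 2) ^ 2) ∨
        (b = (2 * p * q) ^ 2 ∧ a = (p ^ 2 - q ^ 2) ^ 2)) := by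
  have sq : ∀ x y z : ℤ, IsCoprime x y → 0 < x → x * y = z ^ 2 → ∃ w : ℤ, x = w ^ 2 := by
    intro x y z hxy hx hz
    obtain ⟨w, hw | hw⟩ := Int.sq_of_isCoprime hxy hz
    · exact ⟨w, hw⟩
    · have : 0 ≤ w ^ 2 := sq_nonneg w
      omega
  obtain ⟨α, hα⟩ := sq a b r hab ha h1
  obtain ⟨β, hβ⟩ := sq b a r hab.symm hb (by rw [mul_comm]; exact h1)
  have hc : IsCoprime (a + b) a := by
    have : IsCoprime (b + a * 1) a := (IsCoprime.add_mul_left_left hab.symm 1)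
    rwa [mul_one, add_comm] at this
  obtain ⟨γ, hγ⟩ := sq (a + b) a s hc (by linarith) (by rw [mul_comm]; exact h2)
  have hpt : PythagoreanTriple α β γ := by
    unfold PythagoreanTriple
    linear_combination hγ - hα - hβ
  have hg : Int.gcd α β = 1 := by
    rw [← Int.isCoprime_iff_gcd_eq_one]
    rw [hα, hβ] at hab
    exact (IsCoprime.pow_iff (by norm_num) (by norm_num)).1 hab
  obtain ⟨p, q, h3, -, h4, -⟩ := PythagoreanTriple.coprime_classification.mp ⟨hpt, hg⟩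
  refine ⟨p, q, Int.isCoprime_iff_gcd_eq_one.2 h4, ?_⟩
  rcases h3 with ⟨h5, h6⟩ | ⟨h5, h6⟩
  · right
    rw [hα, hβ, h5, h6]
    exact ⟨rfl, rfl⟩
  · left
    rw [hα, hβ, h5, h6]
    exact ⟨rfl, rfl⟩

/-- Pythagorean triples of square roots -/
theorem pyth {a b r s : ℤ} (hab : IsCoprime a b) (ha : a ≠ 0) (hb : b ≠ 0)
    (h1 : a * b = r ^ 2) (h2 : a * (a + b) = s ^ 2) : ∃ p q : ℤ, IsCoprime p q ∧
      ((a ^ 2 = ((2 * p * q) ^ 2) ^ 2 ∧ b ^ 2 = ((p ^ 2 - q ^ 2) ^ 2) ^ 2) ∨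
        (a ^ 2 = ((p ^ 2 - q ^ 2) ^ 2) ^ 2 ∧ b ^ 2 = ((2 * p * q) ^ 2) ^ 2)) := by
  have hr : 0 ≤ a * b := by rw [h1]; positivity
  have hr' : 0 < a * b := lt_of_le_of_ne hr (mul_ne_zero ha hb).symm
  rcases lt_or_gt_of_ne ha with hn | hp
  · have hbn : b < 0 := by
      by_contra h
      push Not at h
      nlinarith
    obtain ⟨p, q, hpq, h⟩ := pyth_pos (a := -a) (b := -b) (r := r) (s := s) hab.neg_neg
      (by linarith) (by linarith) (by linear_combination h1) (by linear_combination h2)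
    refine ⟨p, q, hpq, ?_⟩
    rcases h with ⟨h3, h4⟩ | ⟨h3, h4⟩
    · left
      constructor
      · rw [← h3]; ring
      · rw [← h4]; ring
    · right
      constructor
      · rw [← h4]; ring
      · rw [← h3]; ring
  · have hbp : 0 < b := by
      by_contra h
      push Not at h
      nlinarith
    obtain ⟨p, q, hpq, h⟩ := pyth_pos hab hp hbp h1 h2
    refine ⟨p, q, hpq, ?_⟩
    rcases h with ⟨h3, h4⟩ | ⟨h3, h4⟩
    · left
      rw [h3, h4]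
      exact ⟨rfl, rfl⟩
    · right
      rw [h3, h4]
      exact ⟨rfl, rfl⟩

/-- the relation between a curve and its parameters -/
def Rel8 (c ab : ℤ × ℤ) : Prop := IsCoprime ab.1 ab.2 ∧
  Rel c ((2 * ab.1 * ab.2) ^ 2, (ab.1 ^ 2 - ab.2 ^ 2) ^ 2)

theorem core8 {A B : ℤ} (hD : 4 * A ^ 3 + 27 * B ^ 2 ≠ 0) (hT : HasT 8 (Sh A B)) :
    ∃ ab, Rel8 (A, B) ab := by
  obtain ⟨P, Q, hP, hQ, hPQ⟩ := hT
  obtain ⟨x8, y8, x, y, e1, e2, hy8, hxy8, hx, hy, hxy, r1, r2, hne, h1⟩ := eight_tors hP hQ hPQ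
  -- third root
  have hs : e1 ^ 2 + e1 * e2 + e2 ^ 2 + A = 0 := by
    have : (e1 - e2) * (e1 ^ 2 + e1 * e2 + e2 ^ 2 + A) = 0 := by linear_combination r1 - r2
    exact (mul_eq_zero.mp this).resolve_left (sub_ne_zero.mpr hne)
  have r3 : (-e1 - e2) ^ 3 + A * (-e1 - e2) + B = 0 := by
    linear_combination r1 + (-2 * e1 - e2) * hs
  have s2 := root_sq hy hxy r2 h1
  have s3 := root_sq hy hxy r3 h1
  have s1 := root_sq hy hxy r1 h1
  have q1 := root_sq hy8 hxy8 r1 hx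
  have q2 := root_sq hy8 hxy8 r2 hx
  have hxe : (x - e1) ^ 2 = (e1 - e2) * (e1 - (-e1 - e2)) := by
    rw [sub_self] at s1
    have h3 := (pow_eq_zero_iff (two_ne_zero)).1 s1.symm
    rw [div_eq_zero_iff] at h3
    have h4 := h3.resolve_right (by
      intro h5
      apply hy
      linarith)
    linear_combination h4 + 2 * hs - hs
  set m : ℚ := (x ^ 2 - 2 * e2 * x - A - 2 * e2 ^ 2) / (2 * y) with hm
  set n : ℚ := (x ^ 2 - 2 * (-e1 - e2) * x - A - 2 * (-e1 - e2) ^ 2) / (2 * y) with hn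
  set ρ1 : ℚ := (x8 ^ 2 - 2 * e1 * x8 - A - 2 * e1 ^ 2) / (2 * y8) with hρ1
  set ρ2 : ℚ := (x8 ^ 2 - 2 * e2 * x8 - A - 2 * e2 ^ 2) / (2 * y8) with hρ2
  clear_value m n ρ1 ρ2
  obtain ⟨E1, hE1⟩ := int_root r1
  obtain ⟨E2, hE2⟩ := int_root r2
  obtain ⟨m', hm'⟩ := int_sqrt (M := E1 - E2) (m := m) (by push_cast; rw [hE1, hE2]; exact s2)
  obtain ⟨n', hn'⟩ := int_sqrt (M := 2 * E1 + E2) (m := n) (by
    push_cast; rw [hE1, hE2, ← s3]; ring)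
  -- integral relations
  have t1 : E1 - E2 = m' ^ 2 := by
    have : ((E1 - E2 : ℤ) : ℚ) = ((m' ^ 2 : ℤ) : ℚ) := by
      push_cast; rw [hE1, hE2, hm']; exact s2
    exact_mod_cast this
  have t2 : 2 * E1 + E2 = n' ^ 2 := by
    have : ((2 * E1 + E2 : ℤ) : ℚ) = ((n' ^ 2 : ℤ) : ℚ) := by
      push_cast; rw [hE1, hE2, hn', ← s3]; ring
    exact_mod_cast this
  have t3 : E1 ^ 2 + E1 * E2 + E2 ^ 2 + A = 0 := by
    have : ((E1 ^ 2 + E1 * E2 + E2 ^ 2 + A : ℤ) : ℚ) = ((0 : ℤ) : ℚ) := by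
      push_cast; rw [hE1, hE2]; exact hs
    exact_mod_cast this
  have t4 : E1 ^ 3 + A * E1 + B = 0 := by
    have : ((E1 ^ 3 + A * E1 + B : ℤ) : ℚ) = ((0 : ℤ) : ℚ) := by
      push_cast; rw [hE1]; exact r1
    exact_mod_cast this
  have hA : A = -(E1 ^ 2 + E1 * E2 + E2 ^ 2) := by linarith
  have hB : B = E1 * E2 * (E1 + E2) := by
    rw [hA] at t4
    linear_combination t4
  have n12 : E1 ≠ E2 := by
    intro h
    apply hne
    rw [← hE1, ← hE2, h]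
  have n13 : 2 * E1 + E2 ≠ 0 := by
    intro h
    apply hD
    have : E2 = -2 * E1 := by linarith
    rw [hA, hB, this]
    ring
  have n23 : E1 + 2 * E2 ≠ 0 := by
    intro h
    apply hD
    have : E1 = -2 * E2 := by linarith
    rw [hA, hB, this]
    ring
  have hm0 : m' ≠ 0 := by
    rintro rfl
    apply n12; linarith
  have hn0 : n' ≠ 0 := by
    rintro rfl
    apply n13; linarith
  have hmn : m' ^ 2 ≠ n' ^ 2 := by
    rw [← t1, ← t2]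
    intro h
    apply n23; linarith
  -- the sign of `n`
  have hmu : (x - e1 = m * n) ∨ (x - e1 = m * (-n)) := by
    have h5 : (x - e1) ^ 2 = (m * n) ^ 2 := by
      rw [hxe, s2, s3]; ring
    rcases sq_eq_sq_iff_eq_or_eq_neg.1 h5 with h | h
    · exact Or.inl h
    · right; rw [h]; ring
  obtain ⟨n1, hn1, hn1x⟩ : ∃ n1 : ℤ, n1 ^ 2 = n' ^ 2 ∧ x - e1 = m * (n1 : ℚ) := by
    rcases hmu with h | h
    · exact ⟨n', rfl, by rw [h, hn']⟩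
    · exact ⟨-n', by ring, by rw [h]; push_cast; rw [hn']⟩
  have hn10 : n1 ≠ 0 := by
    rintro rfl
    apply hn0
    have : n' ^ 2 = 0 := by rw [← hn1]; norm_num
    exact (pow_eq_zero_iff two_ne_zero).1 this
  rw [← hm'] at hn1x
  obtain ⟨R1, hR1⟩ := int_sqrt (M := m' * n1) (m := ρ1) (by
    push_cast; rw [← hn1x]; exact q1)
  obtain ⟨R2, hR2⟩ := int_sqrt (M := m' * (m' + n1)) (m := ρ2) (by
    push_cast
    have : (m' : ℚ) * ((m' : ℚ) + n1) = (x - e1) + (m' : ℚ) ^ 2 := by rw [hn1x]; ring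
    rw [this, hm', ← s2, ← q2]
    ring)
  have u1 : m' * n1 = R1 ^ 2 := by
    have : ((m' * n1 : ℤ) : ℚ) = ((R1 ^ 2 : ℤ) : ℚ) := by
      push_cast; rw [hR1, ← hn1x]; exact q1
    exact_mod_cast this
  have u2 : m' * (m' + n1) = R2 ^ 2 := by
    have : ((m' * (m' + n1) : ℤ) : ℚ) = ((R2 ^ 2 : ℤ) : ℚ) := by
      push_cast
      have h6 : (m' : ℚ) * ((m' : ℚ) + n1) = (x - e1) + (m' : ℚ) ^ 2 := by rw [hn1x]; ring
      rw [h6, hR2, hm', ← s2, ← q2]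
      ring
    exact_mod_cast this
  have hg0 : 0 < Int.gcd m' n1 := Int.gcd_pos_of_ne_zero_left _ hm0
  obtain ⟨a, b, hab, ha, hb⟩ := Int.exists_gcd_one hg0
  set g : ℤ := (Int.gcd m' n1 : ℤ) with hg
  have hgpos : 0 < g := by rw [hg]; exact_mod_cast hg0
  have ha0 : a ≠ 0 := by
    rintro rfl
    exact hm0 (by rw [ha]; simp)
  have hb0 : b ≠ 0 := by
    rintro rfl
    exact hn10 (by rw [hb]; simp)
  have hn12 : n' ^ 2 = g ^ 2 * b ^ 2 := by rw [← hn1, hb]; ring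
  have hm12 : m' ^ 2 = g ^ 2 * a ^ 2 := by rw [ha]; ring
  have u1' : 3 * E1 = g ^ 2 * (a ^ 2 + b ^ 2) := by
    have : 3 * E1 = m' ^ 2 + n' ^ 2 := by linarith
    rw [this, hn12, hm12]; ring
  have u2' : 3 * E2 = g ^ 2 * (b ^ 2 - 2 * a ^ 2) := by
    have : 3 * E2 = n' ^ 2 - 2 * m' ^ 2 := by linarith
    rw [this, hn12, hm12]; ring
  have hrel : Rel (A, B) (a, b) := by
    refine ⟨g, E1, hgpos, Int.isCoprime_iff_gcd_eq_one.mpr hab, ha0, hb0, ?_, u1', ?_, ?_⟩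
    · intro h
      apply hmn
      change a ^ 2 = b ^ 2 at h
      rw [hm12, hn12, h]
    · change 3 * A = -(g ^ 4 * (a ^ 4 - a ^ 2 * b ^ 2 + b ^ 4))
      have h9 : 3 * (3 * A) = 3 * (-(g ^ 4 * (a ^ 4 - a ^ 2 * b ^ 2 + b ^ 4))) := by
        have : 3 * (3 * A) = -((3 * E1) ^ 2 + (3 * E1) * (3 * E2) + (3 * E2) ^ 2) := by
          rw [hA]; ring
        rw [this, u1', u2']
        ring
      linarith
    · change 27 * B = g ^ 6 * ((a ^ 2 + b ^ 2) * (2 * a ^ 2 - b ^ 2) * (a ^ 2 - 2 * b ^ 2))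
      have : 27 * B = (3 * E1) * (3 * E2) * (3 * E1 + 3 * E2) := by rw [hB]; ring
      rw [this, u1', u2']
      ring
  -- divide by the common factor
  have hdiv : ∀ z w : ℤ, z * g ^ 2 = w ^ 2 → ∃ v : ℤ, z = v ^ 2 := by
    intro z w h
    have h7 : g ^ 2 ∣ w ^ 2 := ⟨z, by rw [← h]; ring⟩
    obtain ⟨v, hv⟩ := (Int.pow_dvd_pow_iff two_ne_zero).1 h7
    refine ⟨v, ?_⟩
    have h8 : z * g ^ 2 = v ^ 2 * g ^ 2 := by rw [h, hv]; ring
    exact mul_right_cancel₀ (pow_ne_zero 2 hgpos.ne') h8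
  obtain ⟨r, hr⟩ := hdiv (a * b) R1 (by rw [← u1, ha, hb]; ring)
  obtain ⟨s, hs'⟩ := hdiv (a * (a + b)) R2 (by rw [← u2, ha, hb]; ring)
  obtain ⟨p, q, hpq, hcase⟩ := pyth (Int.isCoprime_iff_gcd_eq_one.mpr hab) ha0 hb0 hr hs'
  refine ⟨(p, q), hpq, rel_congr hrel ?_⟩
  rcases hcase with ⟨h7, h8⟩ | ⟨h7, h8⟩
  · exact Or.inl ⟨h7, h8⟩
  · exact Or.inr ⟨h7, h8⟩

open Classical in
/-- the parameters -/
noncomputable def FF8 (c : ℤ × ℤ) : ℤ × ℤ := if h : ∃ ab, Rel8 c ab then h.choose else (0, 0)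

theorem FF8_rel {c : ℤ × ℤ} (h : ∃ ab, Rel8 c ab) : Rel8 c (FF8 c) := by
  unfold FF8
  rw [dif_pos h]
  exact h.choose_spec

theorem rel8_bound {A B : ℤ} {ab : ℤ × ℤ} (h : Rel8 (A, B) ab) {H : ℕ} (hH : 4 * |A| ^ 3 ≤ H) :
    ab.1.natAbs ^ 48 ≤ 221184 * H ∧ ab.2.natAbs ^ 48 ≤ 221184 * H := by
  obtain ⟨a, b⟩ := ab
  obtain ⟨-, h⟩ := h
  obtain ⟨h1, h2⟩ := rel_bound h hH
  change ((2 * a * b) ^ 2).natAbs ^ 12 ≤ 54 * H at h1
  change ((a ^ 2 - b ^ 2) ^ 2).natAbs ^ 12 ≤ 54 * H at h2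
  obtain ⟨m, hm⟩ : ∃ m : ℕ, m = ((2 * a * b) ^ 2).natAbs := ⟨_, rfl⟩
  obtain ⟨n, hn⟩ : ∃ n : ℕ, n = ((a ^ 2 - b ^ 2) ^ 2).natAbs := ⟨_, rfl⟩
  rw [← hm] at h1
  rw [← hn] at h2
  have hmn : (m : ℤ) + n = (a ^ 2 + b ^ 2) ^ 2 := by
    rw [hm, hn, Int.natCast_natAbs, Int.natCast_natAbs, abs_of_nonneg (sq_nonneg _),
      abs_of_nonneg (sq_nonneg _)]
    ring
  have key : ∀ z : ℤ, z ^ 4 ≤ (m : ℤ) + n → z.natAbs ^ 48 ≤ 221184 * H := by
    intro z hz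
    have h3 : z.natAbs ^ 4 ≤ m + n := by
      have h4 : ((z.natAbs ^ 4 : ℕ) : ℤ) = z ^ 4 := by
        push_cast
        exact Even.pow_abs (by decide) z
      have h5 : ((z.natAbs ^ 4 : ℕ) : ℤ) ≤ ((m + n : ℕ) : ℤ) := by
        rw [h4]; push_cast; exact hz
      exact_mod_cast h5
    have h4 : z.natAbs ^ 4 ≤ 2 * max m n := by
      have := le_max_left m n
      have := le_max_right m n
      omega
    have h5 : (max m n) ^ 12 ≤ 54 * H := by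
      rcases max_choice m n with h6 | h6 <;> rw [h6]
      · exact h1
      · exact h2
    calc z.natAbs ^ 48 = (z.natAbs ^ 4) ^ 12 := by rw [← pow_mul]
      _ ≤ (2 * max m n) ^ 12 := Nat.pow_le_pow_left h4 12
      _ = 4096 * (max m n) ^ 12 := by rw [mul_pow]; norm_num
      _ ≤ 4096 * (54 * H) := Nat.mul_le_mul_left _ h5
      _ = 221184 * H := by ring
  have ha2 : 0 ≤ a ^ 2 := sq_nonneg a
  have hb2 : 0 ≤ b ^ 2 := sq_nonneg b
  refine ⟨key a ?_, key b ?_⟩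
  · rw [hmn]
    nlinarith
  · rw [hmn]
    nlinarith

theorem rel_finrank (h : Pool.Agent.W307.RT.ISO) {A B a b : ℤ} (r : Rel (A, B) (a, b)) :
    Module.finrank ℤ (Sh A B).toAffine.Point =
      Module.finrank ℤ (EAB (-(M4 a b)) (-(N4 a b))).toAffine.Point := by
  obtain ⟨g, e, hg, hco, ha0, hb0, hne, he, hA, hB⟩ := r
  change 3 * e = g ^ 2 * (a ^ 2 + b ^ 2) at he
  change 3 * A = -(g ^ 4 * (a ^ 4 - a ^ 2 * b ^ 2 + b ^ 4)) at hA
  change 27 * B = g ^ 6 * ((a ^ 2 + b ^ 2) * (2 * a ^ 2 - b ^ 2) * (a ^ 2 - 2 * b ^ 2)) at hB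
  have hgq : (g : ℚ) ≠ 0 := by exact_mod_cast hg.ne'
  have heq : (e : ℚ) = (g : ℚ) ^ 2 * ((a : ℚ) ^ 2 + (b : ℚ) ^ 2) / 3 := by
    have : (3 : ℚ) * e = (g : ℚ) ^ 2 * ((a : ℚ) ^ 2 + (b : ℚ) ^ 2) := by exact_mod_cast he
    linarith
  have hAq : (A : ℚ) = -((g : ℚ) ^ 4 * ((a : ℚ) ^ 4 - (a : ℚ) ^ 2 * (b : ℚ) ^ 2 + (b : ℚ) ^ 4)) / 3 := by
    have : (3 : ℚ) * A = -((g : ℚ) ^ 4 * ((a : ℚ) ^ 4 - (a : ℚ) ^ 2 * (b : ℚ) ^ 2 + (b : ℚ) ^ 4)) := by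
      exact_mod_cast hA
    linarith
  have hBq : (B : ℚ) = (g : ℚ) ^ 6 * (((a : ℚ) ^ 2 + (b : ℚ) ^ 2) * (2 * (a : ℚ) ^ 2 - (b : ℚ) ^ 2) *
      ((a : ℚ) ^ 2 - 2 * (b : ℚ) ^ 2)) / 27 := by
    have : (27 : ℚ) * B = (g : ℚ) ^ 6 * (((a : ℚ) ^ 2 + (b : ℚ) ^ 2) *
        (2 * (a : ℚ) ^ 2 - (b : ℚ) ^ 2) * ((a : ℚ) ^ 2 - 2 * (b : ℚ) ^ 2)) := by exact_mod_cast hB
    linarith
  obtain ⟨φ⟩ := h 0 A B e g hgq
  have hW : (⟨0, ((0 : ℚ) + 3 * e) / (g : ℚ) ^ 2, 0,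
      ((A : ℚ) + 2 * e * 0 + 3 * (e : ℚ) ^ 2) / (g : ℚ) ^ 4,
      ((B : ℚ) + e * A + (e : ℚ) ^ 2 * 0 + (e : ℚ) ^ 3) / (g : ℚ) ^ 6⟩ : WeierstrassCurve ℚ)
      = EAB (-(M4 a b)) (-(N4 a b)) := by
    unfold EAB M4 N4
    simp only [WeierstrassCurve.mk.injEq, true_and]
    refine ⟨?_, ?_, ?_⟩
    · rw [heq]; push_cast; field_simp; ring
    · rw [heq, hAq]; push_cast; field_simp; ring
    · rw [heq, hAq, hBq]; field_simp; ring
  rw [hW] at φ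
  exact LinearEquiv.finrank_eq φ.toIntLinearEquiv

theorem par8 : PAR 8 48 M8 N8 := by
  refine ⟨221184, FF8, fun H => ⟨?_, ?_⟩⟩
  · intro c hc c' hc' hcc
    rw [Finset.mem_coe] at hc hc'
    simp only [Cv, Finset.mem_filter] at hc hc'
    obtain ⟨-, hD, -, -, hmin, hT⟩ := hc
    obtain ⟨-, hD', -, -, hmin', hT'⟩ := hc'
    have r := FF8_rel (core8 hD hT)
    have r' := FF8_rel (core8 hD' hT')
    change Rel8 c (FF8 c) at r
    change Rel8 c' (FF8 c') at r'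
    rw [← hcc] at r'
    exact rel_unique r.2 r'.2 hmin hmin'
  · intro c hc
    simp only [Cv, Finset.mem_filter] at hc
    obtain ⟨-, hD, hH, -, hmin, hT⟩ := hc
    have r := FF8_rel (core8 hD hT)
    change Rel8 c (FF8 c) at r
    obtain ⟨hb1, hb2⟩ := rel8_bound (A := c.1) (B := c.2) r hH
    set ab := FF8 c with hab
    clear_value ab
    obtain ⟨A, B⟩ := c
    obtain ⟨a, b⟩ := ab
    obtain ⟨hco, r⟩ := r
    have hfin := rel_finrank Pool.Agent.W261.RT.iso r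
    obtain ⟨-, -, -, -, ha0, hb0, hne, -, -, -⟩ := r
    change (2 * a * b) ^ 2 ≠ 0 at ha0
    change (a ^ 2 - b ^ 2) ^ 2 ≠ 0 at hb0
    change ((2 * a * b) ^ 2) ^ 2 ≠ ((a ^ 2 - b ^ 2) ^ 2) ^ 2 at hne
    have eM : M4 ((2 * a * b) ^ 2) ((a ^ 2 - b ^ 2) ^ 2) = M8 a b := by
      unfold M4 M8; ring
    have eN : N4 ((2 * a * b) ^ 2) ((a ^ 2 - b ^ 2) ^ 2) = N8 a b := by
      unfold N4 N8; ring
    rw [eM, eN] at hfin
    refine ⟨hco, ?_, ?_, ?_, hb1, hb2, hfin⟩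
    · change M8 a b ≠ 0
      rw [← eM]
      exact pow_ne_zero 2 ha0
    · change N8 a b ≠ 0
      rw [← eN]
      exact pow_ne_zero 2 hb0
    · change M8 a b ≠ N8 a b
      rw [← eM, ← eN]
      exact hne

end Pool.Agent.V7H54.C8
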