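import Pool.Agent.W29.RT.LOW4

/-!
# There are many curves with a subgroup `Z/2 x Z/8`
-/

set_option autoImplicit false

namespace Pool.Agent.V7H54.C8

open Finset Pool.Agent.W307.RT WeierstrassCurve
open Pool.Agent.W29.RT (nons neg_y cf minim top_root abs_le_cube abs_le_sq totient_sum)

/-- `m = α²`, `n = β²`, `α² + β² = γ²`: a point of order eight -/
lemma hasT8 {A B : ℤ} {α β γ : ℚ} (hg : α ^ 2 + β ^ 2 = γ ^ 2)
    (hA : (A : ℚ) = -27 * ((α ^ 2) ^ 4 - (α ^ 2) ^ 2 * (β ^ 2) ^ 2 + (β ^ 2) ^ 4))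
    (hB : (B : ℚ) = 27 * (((α ^ 2) ^ 2 + (β ^ 2) ^ 2) * (2 * (α ^ 2) ^ 2 - (β ^ 2) ^ 2) *
      ((α ^ 2) ^ 2 - 2 * (β ^ 2) ^ 2)))
    (ha : 0 < α) (hb : 0 < β) (hc : 0 < γ) (hab' : α ≠ β) : HasT 8 (Sh A B) := by
  have ha0 : α ≠ 0 := ha.ne'
  have hb0 : β ≠ 0 := hb.ne'
  have hab2 : α ^ 2 - β ^ 2 ≠ 0 := by
    intro h
    apply hab'
    have : (α - β) * (α + β) = 0 := by linear_combination h
    rcases mul_eq_zero.1 this with h | h
    · linarith
    · linarith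
  -- the point of order 8
  obtain ⟨x8, hx8⟩ : ∃ x8 : ℚ, x8 = 3 * (α ^ 4 + β ^ 4) + 9 * (α * β * (α + γ) * (β + γ)) := ⟨_, rfl⟩
  obtain ⟨y8, hy8⟩ : ∃ y8 : ℚ, y8 = 27 * (α * β * γ * (α + β) * (β + γ) * (α + γ)) := ⟨_, rfl⟩
  have hy80 : y8 ≠ 0 := by rw [hy8]; positivity
  have f1 : x8 - 3 * (α ^ 4 + β ^ 4) = 9 * (α * β * (α + γ) * (β + γ)) := by rw [hx8]; ring
  have f2 : x8 - (3 * β ^ 4 - 6 * α ^ 4) = 9 * (α * γ * (α + β) * (β + γ)) := by
    rw [hx8]; linear_combination (9 * α ^ 2) * hg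
  have f3 : x8 - (3 * α ^ 4 - 6 * β ^ 4) = 9 * (β * γ * (α + β) * (α + γ)) := by
    rw [hx8]; linear_combination (9 * β ^ 2) * hg
  have hcub : x8 ^ 3 + A * x8 + B = (x8 - 3 * (α ^ 4 + β ^ 4)) * (x8 - (3 * β ^ 4 - 6 * α ^ 4)) *
      (x8 - (3 * α ^ 4 - 6 * β ^ 4)) := by
    rw [hA, hB]; ring
  have hder : 3 * x8 ^ 2 + A = (x8 - (3 * β ^ 4 - 6 * α ^ 4)) * (x8 - (3 * α ^ 4 - 6 * β ^ 4)) +
      (x8 - 3 * (α ^ 4 + β ^ 4)) * (x8 - (3 * α ^ 4 - 6 * β ^ 4)) +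
      (x8 - 3 * (α ^ 4 + β ^ 4)) * (x8 - (3 * β ^ 4 - 6 * α ^ 4)) := by
    rw [hA]; ring
  have hP8 : (Sh A B).toAffine.Nonsingular x8 y8 := by
    apply nons _ (Or.inl hy80)
    rw [hcub, f1, f2, f3, hy8]
    ring
  obtain ⟨a, hae⟩ : ∃ a : ℚ, a = α ^ 2 := ⟨_, rfl⟩
  obtain ⟨b, hbe⟩ : ∃ b : ℚ, b = β ^ 2 := ⟨_, rfl⟩
  have ha' : a ≠ 0 := by rw [hae]; positivity
  have hb' : b ≠ 0 := by rw [hbe]; positivity
  have habp : a + b ≠ 0 := by rw [hae, hbe]; positivity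
  have habm : a - b ≠ 0 := by rw [hae, hbe]; exact hab2
  rw [← hae, ← hbe] at hA hB
  have hy : 27 * a * b * (a + b) ≠ 0 := by positivity
  have hP : (Sh A B).toAffine.Nonsingular (3 * (a ^ 2 + b ^ 2) + 9 * a * b)
      (27 * a * b * (a + b)) := by
    apply nons _ (Or.inl hy)
    rw [hA, hB]; ring
  have hR : (Sh A B).toAffine.Nonsingular (3 * (a ^ 2 + b ^ 2)) 0 := by
    apply nons _ (Or.inr _)
    · rw [hA, hB]; ring
    · rw [hA]
      have : 3 * (3 * (a ^ 2 + b ^ 2)) ^ 2 + -27 * (a ^ 4 - a ^ 2 * b ^ 2 + b ^ 4) =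
        81 * a ^ 2 * b ^ 2 := by ring
      rw [this]; positivity
  have hQ : (Sh A B).toAffine.Nonsingular (3 * b ^ 2 - 6 * a ^ 2) 0 := by
    apply nons _ (Or.inr _)
    · rw [hA, hB]; ring
    · rw [hA]
      have : 3 * (3 * b ^ 2 - 6 * a ^ 2) ^ 2 + -27 * (a ^ 4 - a ^ 2 * b ^ 2 + b ^ 4) =
        81 * a ^ 2 * ((a + b) * (a - b)) := by ring
      rw [this]; positivity
  set P8 : (Sh A B).toAffine.Point := .some _ _ hP8 with hP8d
  set P : (Sh A B).toAffine.Point := .some _ _ hP with hPd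
  set R : (Sh A B).toAffine.Point := .some _ _ hR with hRd
  set Q : (Sh A B).toAffine.Point := .some _ _ hQ with hQd
  have hRR : R + R = 0 := by
    rw [hRd]
    apply Affine.Point.add_self_of_Y_eq
    rw [neg_y]; simp
  have hQQ : Q + Q = 0 := by
    rw [hQd]
    apply Affine.Point.add_self_of_Y_eq
    rw [neg_y]; simp
  have hPP : P + P = R := by
    have hne : 27 * a * b * (a + b) ≠ (Sh A B).toAffine.negY (3 * (a ^ 2 + b ^ 2) + 9 * a * b)
        (27 * a * b * (a + b)) := by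
      rw [neg_y]
      intro h
      apply hy
      linarith
    have hsl : (Sh A B).toAffine.slope (3 * (a ^ 2 + b ^ 2) + 9 * a * b)
        (3 * (a ^ 2 + b ^ 2) + 9 * a * b) (27 * a * b * (a + b)) (27 * a * b * (a + b)) =
        3 * (a + b) := by
      rw [Affine.slope_of_Y_ne rfl hne, neg_y]
      simp only [Sh]
      rw [hA, div_eq_iff (by intro h; apply hy; linarith)]
      ring
    rw [hPd, Affine.Point.add_self_of_Y_ne hne, hRd, Affine.Point.some.injEq, hsl]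
    constructor
    · simp only [Affine.addX, Sh]; ring
    · simp only [Affine.addY, Affine.negAddY, Affine.negY, Affine.addX, Sh]; ring
  have hP8P8 : P8 + P8 = P := by
    have hne : y8 ≠ (Sh A B).toAffine.negY x8 y8 := by
      rw [neg_y]
      intro h
      apply hy80
      linarith
    have hsl : (Sh A B).toAffine.slope x8 x8 y8 y8 = 3 * (α * β + α * γ + β * γ) := by
      rw [Affine.slope_of_Y_ne rfl hne, neg_y]
      simp only [Sh]
      rw [div_eq_iff (by intro h; apply hy80; linarith)]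
      have e1 : 3 * x8 ^ 2 + 2 * 0 * x8 + (A : ℚ) - 0 * y8 = 3 * x8 ^ 2 + A := by ring
      rw [e1, hder, f1, f2, f3, hy8]
      ring
    rw [hP8d, Affine.Point.add_self_of_Y_ne hne, hPd, Affine.Point.some.injEq, hsl]
    have hX : (Sh A B).toAffine.addX x8 x8 (3 * (α * β + α * γ + β * γ)) =
        3 * (a ^ 2 + b ^ 2) + 9 * a * b := by
      simp only [Affine.addX, Sh]
      rw [hx8, hae, hbe]
      linear_combination (-9 * (α ^ 2 + β ^ 2)) * hg
    refine ⟨hX, ?_⟩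
    simp only [Affine.addY, Affine.negAddY]
    rw [hX]
    simp only [Affine.negY, Sh]
    rw [hx8, hy8, hae, hbe]
    linear_combination (-27 * α ^ 2 * β ^ 2) * hg
  have hR0 : R ≠ 0 := Affine.Point.some_ne_zero hR
  have hQ0 : Q ≠ 0 := Affine.Point.some_ne_zero hQ
  have hRQ : R ≠ Q := by
    rw [hRd, hQd, Ne, Affine.Point.some.injEq]
    rintro ⟨h, -⟩
    have : 9 * a ^ 2 = 0 := by linarith
    have h3 : a ^ 2 = 0 := by linarith
    exact ha' (pow_eq_zero_iff (by norm_num) |>.1 h3)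
  have h2P : 2 • P = R := by rw [two_nsmul, hPP]
  have h2P8 : 2 • P8 = P := by rw [two_nsmul, hP8P8]
  have h4P8 : (4 : ℕ) • P8 = R := by
    have : (4 : ℕ) • P8 = 2 • (2 • P8) := by rw [← mul_nsmul]
    rw [this, h2P8, h2P]
  have h8P8 : (8 : ℕ) • P8 = 0 := by
    have : (8 : ℕ) • P8 = 2 • (4 • P8) := by rw [← mul_nsmul]
    rw [this, h4P8, two_nsmul, hRR]
  have hoP : addOrderOf P8 = 8 := by
    have := addOrderOf_eq_prime_pow (x := P8) (p := 2) (n := 2) (by norm_num [h4P8, hR0])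
      (by norm_num [h8P8])
    simpa using this
  have hoQ : addOrderOf Q = 2 := by
    apply addOrderOf_eq_prime
    · rw [two_nsmul, hQQ]
    · exact hQ0
  refine ⟨P8, Q, hoP, hoQ, ?_⟩
  intro hmem
  obtain ⟨k, hk⟩ := AddSubgroup.mem_zmultiples_iff.1 hmem
  have h4 : ((addOrderOf P8 : ℕ) : ℤ) ∣ 2 * k := by
    rw [addOrderOf_dvd_iff_zsmul_eq_zero, mul_zsmul, hk, two_zsmul, hQQ]
  rw [hoP] at h4
  obtain ⟨j, hj⟩ : ∃ j, k = 4 * j := by
    obtain ⟨l, hl⟩ := h4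
    exact ⟨l, by push_cast at hl; linarith⟩
  have hkj : k • P8 = j • R := by
    have h4z : (4 : ℤ) • P8 = R := by exact_mod_cast h4P8
    rw [hj, mul_comm, mul_zsmul, h4z]
  rcases Int.even_or_odd j with ⟨i, hi⟩ | ⟨i, hi⟩
  · apply hQ0
    rw [← hk, hkj, hi, ← two_mul, mul_comm, mul_zsmul, two_zsmul, hRR, zsmul_zero]
  · apply hRQ
    rw [← hk, hkj, hi, add_zsmul, one_zsmul, mul_comm, mul_zsmul, two_zsmul, hRR, zsmul_zero,
      zero_add]

theorem mem_cv8 {S H a b : ℕ} (hb : 1 ≤ b) (hab : b < a) (haT : a ≤ S) (hc : a.Coprime b)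
    (hT : HasT 8 (Sh (cf (a, b)).1 (cf (a, b)).2)) (hH : 2000000 * S ^ 12 ≤ H) :
    cf (a, b) ∈ Cv 8 H := by
  have h := Pool.Agent.W29.RT.mem_cv hb hab haT hc hH
  unfold Cv at h ⊢
  simp only [mem_filter] at h ⊢
  exact ⟨h.1, h.2.1, h.2.2.1, h.2.2.2.1, h.2.2.2.2.1, hT⟩

/-- the parameters -/
def al (a b : ℕ) : ℕ := 2 * a * b
/-- the parameters -/
def be (a b : ℕ) : ℕ := (a - b) * (a + b)
/-- the larger square -/
def mx (a b : ℕ) : ℕ := max (al a b ^ 2) (be a b ^ 2)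
/-- the smaller square -/
def mn (a b : ℕ) : ℕ := min (al a b ^ 2) (be a b ^ 2)

lemma be_cast {a b : ℕ} (hab : b < a) : ((be a b : ℕ) : ℤ) = (a : ℤ) ^ 2 - (b : ℤ) ^ 2 := by
  unfold be
  rw [Nat.cast_mul, Nat.cast_sub hab.le, Nat.cast_add]
  ring

lemma al_cast (a b : ℕ) : ((al a b : ℕ) : ℤ) = 2 * (a : ℤ) * (b : ℤ) := by
  unfold al
  push_cast
  ring

/-- parameters: `a` even, `b` odd, coprime, `0 < b < a` -/
structure Pm (a b : ℕ) : Prop where
  hb : 1 ≤ b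
  hab : b < a
  ev : a % 2 = 0
  co : a.Coprime b

lemma Pm.odd {a b : ℕ} (h : Pm a b) : b % 2 = 1 := by
  rcases Nat.mod_two_eq_zero_or_one b with h1 | h1
  · exfalso
    have := Nat.dvd_gcd (Nat.dvd_of_mod_eq_zero h.ev) (Nat.dvd_of_mod_eq_zero h1)
    rw [h.co] at this
    omega
  · exact h1

lemma Pm.odd_be {a b : ℕ} (h : Pm a b) : (be a b) % 2 = 1 := by
  have h1 := h.odd
  have h2 := h.ev
  have h3 := h.hab
  unfold be
  rw [Nat.mul_mod]
  have e1 : (a - b) % 2 = 1 := by omega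
  have e2 : (a + b) % 2 = 1 := by omega
  rw [e1, e2]

lemma Pm.cop {a b : ℕ} (h : Pm a b) : IsCoprime ((al a b : ℕ) : ℤ) ((be a b : ℕ) : ℤ) := by
  have hc : IsCoprime (a : ℤ) (b : ℤ) := Nat.isCoprime_iff_coprime.2 h.co
  have h2 : IsCoprime (2 : ℤ) ((be a b : ℕ) : ℤ) := by
    have : Nat.Coprime 2 (be a b) := (Nat.coprime_two_left).2 (Nat.odd_iff.2 h.odd_be)
    exact_mod_cast Nat.isCoprime_iff_coprime.2 this
  rw [al_cast]
  refine IsCoprime.mul_left (IsCoprime.mul_left h2 ?_) ?_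
  · rw [be_cast h.hab]
    have e : (a : ℤ) ^ 2 - (b : ℤ) ^ 2 = -(b : ℤ) ^ 2 + a * a := by ring
    rw [e]
    exact IsCoprime.add_mul_left_right (hc.pow_right.neg_right) _
  · rw [be_cast h.hab]
    have e : (a : ℤ) ^ 2 - (b : ℤ) ^ 2 = (a : ℤ) ^ 2 + b * (-b) := by ring
    rw [e]
    exact IsCoprime.add_mul_left_right (hc.symm.pow_right) _

lemma Pm.pos {a b : ℕ} (h : Pm a b) : 0 < al a b ∧ 0 < be a b := by
  have h1 := h.hb
  have h2 := h.hab
  constructor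
  · unfold al
    have : 0 < a := by omega
    positivity
  · unfold be
    have : 0 < a - b := by omega
    have : 0 < a + b := by omega
    positivity

lemma Pm.ne {a b : ℕ} (h : Pm a b) : al a b ^ 2 ≠ be a b ^ 2 := by
  intro h1
  have h2 : al a b = be a b := Nat.pow_left_injective (n := 2) (by norm_num) h1
  have h3 := h.odd_be
  rw [← h2] at h3
  unfold al at h3
  rw [mul_assoc, Nat.mul_mod_right] at h3
  omega

lemma cf_symm (a b : ℕ) : cf (a, b) = cf (b, a) := by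
  simp only [cf, Prod.mk.injEq]
  constructor <;> ring

lemma Pm.hasT {a b : ℕ} (h : Pm a b) : HasT 8 (Sh (cf (mx a b, mn a b)).1 (cf (mx a b, mn a b)).2) := by
  have e : cf (mx a b, mn a b) = cf (al a b ^ 2, be a b ^ 2) := by
    unfold mx mn
    rcases le_total (al a b ^ 2) (be a b ^ 2) with h1 | h1
    · rw [max_eq_right h1, min_eq_left h1, cf_symm]
    · rw [max_eq_left h1, min_eq_right h1]
  rw [e]
  have hp := h.pos
  have hq : ((al a b : ℕ) : ℚ) ^ 2 + ((be a b : ℕ) : ℚ) ^ 2 = ((a : ℚ) ^ 2 + (b : ℚ) ^ 2) ^ 2 := by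
    have h1 : ((al a b : ℕ) : ℤ) ^ 2 + ((be a b : ℕ) : ℤ) ^ 2 = ((a : ℤ) ^ 2 + (b : ℤ) ^ 2) ^ 2 := by
      rw [al_cast, be_cast h.hab]
      ring
    exact_mod_cast h1
  have h1 := h.hb
  have h2 := h.hab
  refine hasT8 hq ?_ ?_ (by exact_mod_cast hp.1) (by exact_mod_cast hp.2) (by
    have : 0 < a := by omega
    positivity) ?_
  · simp only [cf]
    push_cast
    ring
  · simp only [cf]
    push_cast
    ring
  · intro h3
    apply h.ne
    have : al a b = be a b := by exact_mod_cast h3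
    rw [this]

lemma Pm.mem {a b T H : ℕ} (h : Pm a b) (haT : a ≤ T) (hH : 2000000 * (4 * T ^ 4) ^ 12 ≤ H) :
    cf (mx a b, mn a b) ∈ Cv 8 H := by
  have hp := h.pos
  have h1 := h.hb
  have h2 := h.hab
  have hne := h.ne
  have hcop : (al a b ^ 2).Coprime (be a b ^ 2) := by
    have : (al a b).Coprime (be a b) := Nat.isCoprime_iff_coprime.1 h.cop
    exact (this.pow_left 2).pow_right 2
  have hal : al a b ^ 2 ≤ 4 * T ^ 4 := by
    have : al a b ≤ 2 * T ^ 2 := by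
      unfold al
      nlinarith
    calc al a b ^ 2 ≤ (2 * T ^ 2) ^ 2 := Nat.pow_le_pow_left this 2
      _ = 4 * T ^ 4 := by ring
  have hbe : be a b ^ 2 ≤ 4 * T ^ 4 := by
    have : be a b ≤ 2 * T ^ 2 := by
      unfold be
      have e1 : a - b ≤ T := by omega
      have e2 : a + b ≤ 2 * T := by omega
      calc (a - b) * (a + b) ≤ T * (2 * T) := Nat.mul_le_mul e1 e2
        _ = 2 * T ^ 2 := by ring
    calc be a b ^ 2 ≤ (2 * T ^ 2) ^ 2 := Nat.pow_le_pow_left this 2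
      _ = 4 * T ^ 4 := by ring
  have hal0 : 0 < al a b ^ 2 := pow_pos hp.1 2
  have hbe0 : 0 < be a b ^ 2 := pow_pos hp.2 2
  refine mem_cv8 (S := 4 * T ^ 4) ?_ ?_ ?_ ?_ h.hasT hH
  · unfold mn
    exact le_min hal0 hbe0
  · unfold mn mx
    exact min_lt_max.2 hne
  · unfold mx
    exact max_le hal hbe
  · unfold mx mn
    rcases le_total (al a b ^ 2) (be a b ^ 2) with h1 | h1
    · rw [max_eq_right h1, min_eq_left h1]
      exact hcop.symm
    · rw [max_eq_left h1, min_eq_right h1]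
      exact hcop

lemma Pm.inj {a b a' b' : ℕ} (h : Pm a b) (h' : Pm a' b')
    (he : cf (mx a b, mn a b) = cf (mx a' b', mn a' b')) : a = a' ∧ b = b' := by
  have hp := h.pos
  have hp' := h'.pos
  have hal0 : 0 < al a b ^ 2 := pow_pos hp.1 2
  have hbe0 : 0 < be a b ^ 2 := pow_pos hp.2 2
  have hal0' : 0 < al a' b' ^ 2 := pow_pos hp'.1 2
  have hbe0' : 0 < be a' b' ^ 2 := pow_pos hp'.2 2
  have k1 : 1 ≤ mn a b := le_min hal0 hbe0
  have k1' : 1 ≤ mn a' b' := le_min hal0' hbe0'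
  have k2 : mn a b < mx a b := min_lt_max.2 h.ne
  have k2' : mn a' b' < mx a' b' := min_lt_max.2 h'.ne
  simp only [cf, Prod.mk.injEq] at he
  obtain ⟨e1, e2⟩ := Pool.Agent.W29.RT.cf_inj (by exact_mod_cast k1) (by exact_mod_cast k2)
    (by exact_mod_cast k1') (by exact_mod_cast k2') he.1 he.2
  have e1' : mx a b = mx a' b' := by exact_mod_cast e1
  have e2' : mn a b = mn a' b' := by exact_mod_cast e2
  have par1 : ∀ x y : ℕ, (al x y ^ 2) % 2 = 0 := by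
    intro x y
    unfold al
    rw [show (2 * x * y) ^ 2 = 2 * (2 * (x * y) ^ 2) by ring, Nat.mul_mod_right]
  have par2 : ∀ x y : ℕ, Pm x y → (be x y ^ 2) % 2 = 1 := by
    intro x y hxy
    rw [Nat.pow_mod, hxy.odd_be]
  have p1 := par1 a b
  have p2 := par2 a b h
  have p3 := par1 a' b'
  have p4 := par2 a' b' h'
  have hall : al a b ^ 2 = al a' b' ^ 2 ∧ be a b ^ 2 = be a' b' ^ 2 := by
    unfold mx at e1'
    unfold mn at e2'
    omega
  have hα : al a b = al a' b' := Nat.pow_left_injective (n := 2) (by norm_num) hall.1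
  have hβ : be a b = be a' b' := Nat.pow_left_injective (n := 2) (by norm_num) hall.2
  have hα' : 2 * (a : ℤ) * b = 2 * (a' : ℤ) * b' := by
    rw [← al_cast, ← al_cast, hα]
  have hβ' : (a : ℤ) ^ 2 - (b : ℤ) ^ 2 = (a' : ℤ) ^ 2 - (b' : ℤ) ^ 2 := by
    rw [← be_cast h.hab, ← be_cast h'.hab, hβ]
  have hγ : ((a : ℤ) ^ 2 + (b : ℤ) ^ 2) ^ 2 = ((a' : ℤ) ^ 2 + (b' : ℤ) ^ 2) ^ 2 := by
    have e1 : ((a : ℤ) ^ 2 + (b : ℤ) ^ 2) ^ 2 = ((a : ℤ) ^ 2 - (b : ℤ) ^ 2) ^ 2 + (2 * (a : ℤ) * b) ^ 2 := by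
      ring
    rw [e1, hα', hβ']
    ring
  have hγ' : (a : ℤ) ^ 2 + (b : ℤ) ^ 2 = (a' : ℤ) ^ 2 + (b' : ℤ) ^ 2 :=
    (pow_left_inj₀ (by positivity) (by positivity) two_ne_zero).1 hγ
  have s1 : (a : ℤ) ^ 2 = (a' : ℤ) ^ 2 := by linarith
  have s2 : (b : ℤ) ^ 2 = (b' : ℤ) ^ 2 := by linarith
  have t1 : (a : ℤ) = a' := (pow_left_inj₀ (by positivity) (by positivity) two_ne_zero).1 s1
  have t2 : (b : ℤ) = b' := (pow_left_inj₀ (by positivity) (by positivity) two_ne_zero).1 s2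
  exact ⟨by exact_mod_cast t1, by exact_mod_cast t2⟩

/-- the pairs -/
def SS8 (T : ℕ) : Finset (Σ _ : ℕ, ℕ) :=
  (Icc 1 (T / 2)).sigma (fun k => (range (2 * k)).filter (fun b => (2 * k).Coprime b))

lemma card_SS8 (T : ℕ) : (T / 2) ^ 2 ≤ 12 * (SS8 T).card := by
  refine (totient_sum (T / 2)).trans ?_
  apply Nat.mul_le_mul_left
  unfold SS8
  rw [card_sigma]
  apply sum_le_sum
  intro k hk
  rw [mem_Icc] at hk
  have h1 : k.totient ≤ (2 * k).totient := by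
    apply Nat.le_of_dvd
    · rw [Nat.totient_pos]
      omega
    · exact Nat.totient_dvd_of_dvd (Dvd.intro_left 2 rfl)
  exact h1

lemma pm_of {T : ℕ} {t : Σ _ : ℕ, ℕ} (ht : t ∈ SS8 T) : Pm (2 * t.1) t.2 ∧ 2 * t.1 ≤ T := by
  unfold SS8 at ht
  rw [mem_sigma, mem_Icc, mem_filter, mem_range] at ht
  obtain ⟨⟨k1, k2⟩, k3, k4⟩ := ht
  refine ⟨⟨?_, k3, by omega, k4⟩, by omega⟩
  rcases Nat.eq_zero_or_pos t.2 with h | h
  · rw [h, Nat.coprime_zero_right] at k4; omega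
  · exact h

theorem low8 : LOW 8 48 := by
  refine ⟨1 / 192, 2000000 * 4 ^ 12, 2, by norm_num, fun T H hT hH => ?_⟩
  have h1 : (SS8 T).card ≤ (Cv 8 H).card := by
    apply card_le_card_of_injOn (fun t => cf (mx (2 * t.1) t.2, mn (2 * t.1) t.2))
    · intro t ht
      have ht' : t ∈ SS8 T := ht
      obtain ⟨h1, h2⟩ := pm_of ht'
      refine h1.mem h2 (le_trans (le_of_eq ?_) hH)
      ring
    · intro t ht t' ht' h
      obtain ⟨h1, -⟩ := pm_of (show t ∈ SS8 T from ht)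
      obtain ⟨h1', -⟩ := pm_of (show t' ∈ SS8 T from ht')
      obtain ⟨e1, e2⟩ := h1.inj h1' h
      exact Sigma.ext (by omega) (heq_of_eq e2)
  have h2 := card_SS8 T
  have h3 : T ^ 2 ≤ 192 * (SS8 T).card := by
    have h4 : T ≤ 4 * (T / 2) := by omega
    have h5 : T ^ 2 ≤ (4 * (T / 2)) ^ 2 := Nat.pow_le_pow_left h4 2
    have h6 : (4 * (T / 2)) ^ 2 = 16 * (T / 2) ^ 2 := by ring
    omega
  have h3' : (T : ℝ) ^ 2 ≤ 192 * ((SS8 T).card : ℝ) := by exact_mod_cast h3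
  have h4 : ((SS8 T).card : ℝ) ≤ ((Cv 8 H).card : ℝ) := by exact_mod_cast h1
  linarith

end Pool.Agent.V7H54.C8
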