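import Pool.Agent.V7H54.C8.Cong

/-!
# The seven forms of the `Z/2 x Z/8` parametrisation: residue classes
-/

set_option autoImplicit false

namespace Pool.Agent.V7H54.C8

open Finset Pool.Agent.W262.RK Pool.Agent.W307.RT
open Pool.Agent.W29.RT (dvd_S1 dvd_S2 G2 c0 mj_eq)
open Pool.Agent.W372.RK2 (mem_Tup' sq_pow_dvd mj mj_primes prod_gw)

variable {z y Y : ℕ} {s v u : Fin 7 → ℕ}

/-- the parts `s j`, `v j ^ 2`, `u j` are coprime -/
lemma cop_parts {f : Fin 7 → ℤ} (g : G2 z y s v u f) (hs : s ∈ Tup (Fin 7) z y)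
    (hv : v ∈ Tup (Fin 7) z y) (hu : u ∈ Tup (Fin 7) y Y) (j : Fin 7) :
    (s j).Coprime (v j) ∧ (s j).Coprime (u j) ∧ (v j).Coprime (u j) := by
  have hs' := (mem_Tup'.1 hs).1
  have hv' := (mem_Tup'.1 hv).1
  have hu' := (mem_Tup'.1 hu).1
  refine ⟨?_, ?_, ?_⟩
  · apply Nat.coprime_of_dvd
    intro p hp hps hpv
    exact (g.fs hp hps).2.2 (g.fv hp hpv).2
  · apply Nat.coprime_of_dvd
    intro p hp hps hpu
    have h8 : y < p := (g.fu hu hp hpu).1
    have h9 : p ≤ y := (dv_prime (hs' j) hp hps).2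
    omega
  · apply Nat.coprime_of_dvd
    intro p hp hps hpu
    have h8 : y < p := (g.fu hu hp hpu).1
    have h9 : p ≤ y := (dv_prime (hv' j) hp hps).2
    omega

/-- two counted `x` that are congruent modulo all primes of the modulus are congruent -/
lemma cong8 (hz : 7 ≤ z) {e x x' : ℤ} {w : ℕ} (he : e = 1 ∨ e = -1)
    (hs : s ∈ Tup (Fin 7) z y) (hv : v ∈ Tup (Fin 7) z y) (hu : u ∈ Tup (Fin 7) y Y)
    (hzy : z < y) (hw : ∀ p : ℕ, p.Prime → ∀ j, p ∣ v j → ¬ p ∣ w)
    (g : G2 z y s v u (f8 x (e * (w : ℤ) + 2 * x)))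
    (g' : G2 z y s v u (f8 x' (e * (w : ℤ) + 2 * x')))
    (hpp : ∀ p : ℕ, p.Prime → p ∣ ∏ j, mj c0 s v u j → (p : ℤ) ∣ x - x') :
    ((∏ j, mj c0 s v u j : ℕ) : ℤ) ∣ x - x' := by
  have hs' := (mem_Tup'.1 hs).1
  have hv' := (mem_Tup'.1 hv).1
  have hu' := (mem_Tup'.1 hu).1
  have hdj : ∀ (j : Fin 7) (p : ℕ), p ∣ mj c0 s v u j → p ∣ ∏ j, mj c0 s v u j := fun j p h =>
    h.trans (dvd_prod_of_mem _ (mem_univ j))
  rw [Nat.cast_prod]
  apply Finset.prod_dvd_of_coprime
  · intro j _ l _ hjl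
    rw [Function.onFun, Nat.isCoprime_iff_coprime]
    apply Nat.coprime_of_dvd
    intro p hp hpj hpl
    have h1 := g.fmj hu hzy hp hpj
    have h2 := g.fmj hu hzy hp hpl
    exact hjl (g.un p hp h1.1 j l h1.2 h2.2)
  intro j _
  have h5 : ((s j : ℕ) : ℤ) ∣ x - x' := by
    have h := sq_pow_dvd (dv_squarefree (hs' j)) 1 (x - x')
      (fun p hp hpd => by
        rw [pow_one]
        apply hpp p hp (hdj j p _)
        rw [mj_eq]
        exact ((hpd.mul_right _).mul_right _))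
    rwa [pow_one] at h
  have h6 : ((v j ^ 2 : ℕ) : ℤ) ∣ x - x' := by
    have h := sq_pow_dvd (dv_squarefree (hv' j)) 2 (x - x')
      (fun p hp hpd => by
        have h7 : 7 < p := lt_of_le_of_lt hz (dv_prime (hv' j) hp hpd).1
        refine lift8 hp h7 he (j := j) (fun h => hw p hp j hpd (Int.natCast_dvd_natCast.1 h))
          (g.fv hp hpd).2 (g'.fv hp hpd).2 ?_
        apply hpp p hp (hdj j p _)
        rw [mj_eq]
        exact (((hpd.pow two_ne_zero).mul_left _).mul_right _))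
    exact_mod_cast h
  have h7 : ((u j : ℕ) : ℤ) ∣ x - x' := by
    have h := sq_pow_dvd (dv_squarefree (hu' j)) 1 (x - x')
      (fun p hp hpd => by
        rw [pow_one]
        apply hpp p hp (hdj j p _)
        rw [mj_eq]
        exact hpd.mul_left _)
    rwa [pow_one] at h
  obtain ⟨c1, c2, c3⟩ := cop_parts g hs hv hu j
  have hcop1 : IsCoprime ((s j : ℕ) : ℤ) ((v j ^ 2 : ℕ) : ℤ) := by
    rw [Nat.isCoprime_iff_coprime]
    exact c1.pow_right 2
  have hcop2 : IsCoprime ((s j * v j ^ 2 : ℕ) : ℤ) ((u j : ℕ) : ℤ) := by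
    rw [Nat.isCoprime_iff_coprime]
    exact Nat.Coprime.mul_left c2 (c3.pow_left 2)
  rw [mj_eq, Nat.cast_mul]
  refine hcop2.mul_dvd ?_ h7
  rw [Nat.cast_mul]
  exact hcop1.mul_dvd h5 h6

open Classical in
/-- the residues modulo `p` that are roots of the forms with `p ∣ mj j` -/
noncomputable def Z8 (e : ℤ) (w : ℕ) (s v u : Fin 7 → ℕ) (p : ℕ) : Finset ℕ :=
  (range p).filter (fun a : ℕ => ∀ j, p ∣ mj c0 s v u j →
    (p : ℤ) ∣ f8 (a : ℤ) (e * (w : ℤ) + 2 * (a : ℤ)) j)

lemma card_Z8 {e : ℤ} (he : e = 1 ∨ e = -1) {w p : ℕ} (hp : p.Prime) (h7 : 7 < p) (hw : ¬ p ∣ w)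
    {j : Fin 7} (hj : p ∣ mj c0 s v u j) : (Z8 e w s v u p).card ≤ R8 p j := by
  have : Fact p.Prime := ⟨hp⟩
  have hw' : ((w : ℕ) : ZMod p) ≠ 0 := fun h => hw ((ZMod.natCast_eq_zero_iff _ _).1 h)
  have hE : (e : ZMod p) = 1 ∨ (e : ZMod p) = -1 := by
    rcases he with h | h
    · left; rw [h]; simp
    · right; rw [h]; simp
  rw [← root_card h7 hE hw' j, ← card_zmod]
  apply card_le_card
  intro a ha
  unfold Z8 at ha
  rw [mem_filter] at ha ⊢
  refine ⟨ha.1, ?_⟩
  have h := ha.2 j hj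
  rw [dvd_g8] at h
  push_cast at h
  exact h

lemma mj_ne_zero (hs : s ∈ Tup (Fin 7) z y) (hv : v ∈ Tup (Fin 7) z y)
    (hu : u ∈ Tup (Fin 7) y Y) (j : Fin 7) : mj c0 s v u j ≠ 0 := by
  have h1 := dv_ne_zero ((mem_Tup'.1 hs).1 j)
  have h2 := dv_ne_zero ((mem_Tup'.1 hv).1 j)
  have h3 := dv_ne_zero ((mem_Tup'.1 hu).1 j)
  rw [mj_eq]
  positivity

lemma R8_pow {p : ℕ} (hp : p.Prime) (h7 : 7 < p) (j : Fin 7) : (R8 p j : ℝ) ≤ 2 := by
  exact_mod_cast R8_le hp (by omega) j

/-- the number of tuples of residues -/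
lemma card_pi (hz : 7 ≤ z) {e x : ℤ} {w : ℕ} (he : e = 1 ∨ e = -1)
    (hs : s ∈ Tup (Fin 7) z y) (hv : v ∈ Tup (Fin 7) z y) (hu : u ∈ Tup (Fin 7) y Y)
    (hzy : z < y) (hw : ∀ p : ℕ, p.Prime → ∀ j, p ∣ mj c0 s v u j → ¬ p ∣ w)
    (g : G2 z y s v u (f8 x (e * (w : ℤ) + 2 * x))) :
    (∏ p ∈ (∏ j, mj c0 s v u j).primeFactors, ((Z8 e w s v u p).card : ℝ)) ≤
      ∏ j, ((∏ p ∈ (s j).primeFactors, (1 + Jr (D8 j) p)) * 2 ^ (v j).primeFactors.card *
        2 ^ (u j).primeFactors.card) := by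
  have hs' := (mem_Tup'.1 hs).1
  have hv' := (mem_Tup'.1 hv).1
  have hu' := (mem_Tup'.1 hu).1
  have hbU : (∏ j, mj c0 s v u j).primeFactors = univ.biUnion (fun j => (mj c0 s v u j).primeFactors) := by
    ext p
    rw [Nat.mem_primeFactors, mem_biUnion]
    constructor
    · rintro ⟨hp, hpm, -⟩
      obtain ⟨j, hj, hpj⟩ := (hp.prime.dvd_finsetProd_iff _).1 hpm
      exact ⟨j, mem_univ j, Nat.mem_primeFactors.2 ⟨hp, hpj, mj_ne_zero hs hv hu j⟩⟩
    · rintro ⟨j, -, hj⟩
      rw [Nat.mem_primeFactors] at hj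
      exact ⟨hj.1, hj.2.1.trans (dvd_prod_of_mem _ (mem_univ j)),
        prod_ne_zero_iff.2 fun j _ => mj_ne_zero hs hv hu j⟩
  rw [hbU, prod_biUnion]
  · apply prod_le_prod
    · intro j _
      exact prod_nonneg fun _ _ => Nat.cast_nonneg _
    · intro j _
      obtain ⟨c1, c2, c3⟩ := cop_parts g hs hv hu j
      have h1 : (mj c0 s v u j).primeFactors =
          ((s j).primeFactors ∪ (v j).primeFactors) ∪ (u j).primeFactors := by
        rw [mj_eq, Nat.primeFactors_mul (by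
            have h1 := dv_ne_zero (hs' j)
            have h2 := dv_ne_zero (hv' j)
            positivity) (dv_ne_zero (hu' j)),
          Nat.primeFactors_mul (dv_ne_zero (hs' j)) (pow_ne_zero 2 (dv_ne_zero (hv' j))),
          Nat.primeFactors_pow _ two_ne_zero]
      have hle : ∀ p ∈ (mj c0 s v u j).primeFactors, ((Z8 e w s v u p).card : ℝ) ≤ R8 p j ∧
          p.Prime ∧ 7 < p := by
        intro p hp
        have hpp := Nat.prime_of_mem_primeFactors hp
        have hd := Nat.dvd_of_mem_primeFactors hp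
        have h7 : 7 < p := lt_of_le_of_lt hz (g.fmj hu hzy hpp hd).1
        exact ⟨by exact_mod_cast card_Z8 he hpp h7 (hw p hpp j hd) hd, hpp, h7⟩
      have hd1 : Disjoint (s j).primeFactors (v j).primeFactors :=
        c1.disjoint_primeFactors
      have hd2 : Disjoint ((s j).primeFactors ∪ (v j).primeFactors) (u j).primeFactors := by
        rw [disjoint_union_left]
        exact ⟨c2.disjoint_primeFactors, c3.disjoint_primeFactors⟩
      rw [h1, prod_union hd2, prod_union hd1]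
      have m1 : ∀ p ∈ (s j).primeFactors, p ∈ (mj c0 s v u j).primeFactors := fun p hp => by
        rw [h1]; exact mem_union_left _ (mem_union_left _ hp)
      have m2 : ∀ p ∈ (v j).primeFactors, p ∈ (mj c0 s v u j).primeFactors := fun p hp => by
        rw [h1]; exact mem_union_left _ (mem_union_right _ hp)
      have m3 : ∀ p ∈ (u j).primeFactors, p ∈ (mj c0 s v u j).primeFactors := fun p hp => by
        rw [h1]; exact mem_union_right _ hp
      apply mul_le_mul
      · apply mul_le_mul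
        · apply prod_le_prod (fun _ _ => Nat.cast_nonneg _)
          intro p hp
          obtain ⟨h2, h3, h4⟩ := hle p (m1 p hp)
          refine h2.trans (le_of_eq ?_)
          have h5 := R8_eq h3 (by omega) j
          unfold Jr
          exact_mod_cast h5
        · rw [← prod_const]
          apply prod_le_prod (fun _ _ => Nat.cast_nonneg _)
          intro p hp
          obtain ⟨h2, h3, h4⟩ := hle p (m2 p hp)
          exact h2.trans (R8_pow h3 h4 j)
        · exact prod_nonneg fun _ _ => Nat.cast_nonneg _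
        · apply prod_nonneg
          intro p hp
          have := abs_le.1 (abs_Jr_le (D8 j) p)
          linarith
      · rw [← prod_const]
        apply prod_le_prod (fun _ _ => Nat.cast_nonneg _)
        intro p hp
        obtain ⟨h2, h3, h4⟩ := hle p (m3 p hp)
        exact h2.trans (R8_pow h3 h4 j)
      · exact prod_nonneg fun _ _ => Nat.cast_nonneg _
      · apply mul_nonneg
        · apply prod_nonneg
          intro p hp
          have := abs_le.1 (abs_Jr_le (D8 j) p)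
          linarith
        · positivity
  · intro j _ l _ hjl
    rw [Function.onFun, disjoint_left]
    intro p h1 h2
    have hp := Nat.prime_of_mem_primeFactors h1
    have h3 := g.fmj hu hzy hp (Nat.dvd_of_mem_primeFactors h1)
    have h4 := g.fmj hu hzy hp (Nat.dvd_of_mem_primeFactors h2)
    exact hjl (g.un p hp h3.1 j l h3.2 h4.2)

/-- the product over the primes of the modulus -/
lemma prod_pr8 {f : Fin 7 → ℤ} (hs : s ∈ Tup (Fin 7) z y) (hv : v ∈ Tup (Fin 7) z y)
    (hu : u ∈ Tup (Fin 7) y Y) (g : G2 z y s v u f) (c : ℕ) :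
    ∏ p ∈ (∏ j, mj c0 s v u j).primeFactors.filter (fun p => p ∈ PS z y),
      (p : ℝ) / ((p : ℝ) - c) = ∏ j, ((s j * gw 1 c (s j)) * (v j * gw 1 c (v j))) := by
  have hs' := (mem_Tup'.1 hs).1
  have hv' := (mem_Tup'.1 hv).1
  have key : ∀ j p, p ∈ (s j).primeFactors ∪ (v j).primeFactors →
      p.Prime ∧ z < p ∧ (p : ℤ) ∣ f j := by
    intro j p hp
    rcases mem_union.1 hp with hp | hp
    · have h1 := Nat.prime_of_mem_primeFactors hp
      have h2 := g.fs h1 (Nat.dvd_of_mem_primeFactors hp)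
      exact ⟨h1, (mem_PS.1 h2.1).1.1, h2.2.1⟩
    · have h1 := Nat.prime_of_mem_primeFactors hp
      have h2 := g.fv h1 (Nat.dvd_of_mem_primeFactors hp)
      exact ⟨h1, (mem_PS.1 h2.1).1.1, (dvd_pow_self (p : ℤ) two_ne_zero).trans h2.2⟩
  rw [mj_primes hs hv hu, prod_biUnion]
  · apply prod_congr rfl
    intro j _
    rw [prod_union, prod_gw (hs' j), prod_gw (hv' j)]
    rw [Finset.disjoint_left]
    intro p h1 h2
    have hp := Nat.prime_of_mem_primeFactors h1
    exact (g.fs hp (Nat.dvd_of_mem_primeFactors h1)).2.2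
      (g.fv hp (Nat.dvd_of_mem_primeFactors h2)).2
  · intro j _ l _ hjl
    rw [Function.onFun, Finset.disjoint_left]
    intro p h1 h2
    have h3 := key j p h1
    have h4 := key l p h2
    exact hjl (g.un p h3.1 h3.2.1 j l h3.2.2 h4.2.2)

end Pool.Agent.V7H54.C8
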