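import Pool.Agent.V7H54.C8.SV8
import Pool.Agent.V7H54.C8.Cls
import Pool.Agent.W216.RT.AVH

/-!
# The seven forms of the `Z/2 x Z/8` parametrisation: CNT8

The number of coprime pairs with given small prime factors of the values of the forms.
-/

set_option autoImplicit false

namespace Pool.Agent.V7H54.C8

open Finset Pool.Agent.W262.RK Pool.Agent.W307.RT
open Pool.Agent.W29.RT (dvd_S1 dvd_S2 G2 c0 mj_eq)
open Pool.Agent.W372.RK2 (mem_Tup' sq_pow_dvd mj mj_primes prod_gw)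

lemma jr_nonneg (D : ℤ) (p : ℕ) : 0 ≤ 1 + Jr D p := by
  have := abs_le.1 (abs_Jr_le D p)
  linarith

/-- CNT8, with `2 ^ ω(v j)` -/
theorem cnt8' (z : ℕ) (hz : 22 ≤ z) : ∃ (C : ℝ) (K y0 : ℕ), 0 ≤ C ∧ 1 ≤ K ∧
  ∀ X y Y : ℕ, y0 ≤ y → z < y → y ^ K ≤ X → ∀ e : ℤ, (e = 1 ∨ e = -1) →
  ∀ s ∈ Tup (Fin 7) z y, ∀ v ∈ Tup (Fin 7) z y, ∀ u ∈ Tup (Fin 7) y Y,
    (∏ j, s j * v j * u j) ^ 8 ≤ X →
    (((Icc 1 X ×ˢ Icc 1 X).filter (fun t : ℕ × ℕ => t.1.Coprime t.2 ∧
      S1 z y (f8 (t.1 : ℤ) (e * (t.2 : ℤ) + 2 * (t.1 : ℤ))) = s ∧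
      S2 z y (f8 (t.1 : ℤ) (e * (t.2 : ℤ) + 2 * (t.1 : ℤ))) = v ∧
      ∀ j, (u j : ℤ) ∣ f8 (t.1 : ℤ) (e * (t.2 : ℤ) + 2 * (t.1 : ℤ)) j)).card : ℝ) ≤
      C * X ^ 2 * (∏ j, gw 1 10 (s j) * ∏ p ∈ (s j).primeFactors, (1 + Jr (D8 j) p)) *
        (∏ j, 2 ^ (v j).primeFactors.card * (gw 1 10 (v j) / v j)) *
        (∏ j, 2 ^ (u j).primeFactors.card / (u j : ℝ)) / (Real.log y) ^ 7 := by
  obtain ⟨C, K, y0, hC, hK, hSV⟩ := sv8 z hz
  obtain ⟨CA, hCA, hav⟩ := Pool.Agent.W216.RT.AVH.avh 10 z (by omega)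
  refine ⟨C * CA, K, y0, mul_nonneg hC hCA, hK, ?_⟩
  intro X y Y hy0 hzy hX e he s hs v hv u hu hsvu
  have hs' := (mem_Tup'.1 hs).1
  have hv' := (mem_Tup'.1 hv).1
  have hu' := (mem_Tup'.1 hu).1
  have hc : 10 ≤ z := by omega
  have hlog : 0 ≤ (Real.log y) ^ 7 := pow_nonneg (Real.log_natCast_nonneg y) _
  have hgs : ∀ j, 0 ≤ gw 1 10 (s j) := fun j => gw_nonneg zero_le_one hc (hs' j)
  have hgv : ∀ j, 0 ≤ gw 1 10 (v j) := fun j => gw_nonneg zero_le_one hc (hv' j)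
  set T := (Icc 1 X ×ˢ Icc 1 X).filter (fun t : ℕ × ℕ => t.1.Coprime t.2 ∧
      S1 z y (f8 (t.1 : ℤ) (e * (t.2 : ℤ) + 2 * (t.1 : ℤ))) = s ∧
      S2 z y (f8 (t.1 : ℤ) (e * (t.2 : ℤ) + 2 * (t.1 : ℤ))) = v ∧
      ∀ j, (u j : ℤ) ∣ f8 (t.1 : ℤ) (e * (t.2 : ℤ) + 2 * (t.1 : ℤ)) j) with hT
  have hgood : ∀ t ∈ T, G2 z y s v u (f8 (t.1 : ℤ) (e * (t.2 : ℤ) + 2 * (t.1 : ℤ))) ∧
      t.1.Coprime t.2 := by
    intro t ht
    rw [hT, mem_filter] at ht
    exact ⟨⟨ht.2.2.1, ht.2.2.2.1, ht.2.2.2.2, fun p hp hzp j l hj hl =>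
      un8 he ht.2.1 hp (by omega) hj hl⟩, ht.2.1⟩
  obtain ⟨PI, hPI⟩ : ∃ PI : ℝ, PI = ∏ j, ((∏ p ∈ (s j).primeFactors, (1 + Jr (D8 j) p)) *
      2 ^ (v j).primeFactors.card * 2 ^ (u j).primeFactors.card) := ⟨_, rfl⟩
  have hPI0 : 0 ≤ PI := by
    rw [hPI]
    apply prod_nonneg
    intro j _
    have : 0 ≤ ∏ p ∈ (s j).primeFactors, (1 + Jr (D8 j) p) :=
      prod_nonneg fun p _ => jr_nonneg _ _
    positivity
  rcases T.eq_empty_or_nonempty with hTe | ⟨t0, ht0⟩
  · rw [hTe, card_empty, Nat.cast_zero]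
    apply div_nonneg _ hlog
    have h1 : 0 ≤ ∏ j, (gw 1 10 (s j) * ∏ p ∈ (s j).primeFactors, (1 + Jr (D8 j) p)) :=
      prod_nonneg fun j _ => mul_nonneg (hgs j) (prod_nonneg fun p _ => jr_nonneg _ _)
    have h2 : 0 ≤ ∏ j, (2 : ℝ) ^ (v j).primeFactors.card * (gw 1 10 (v j) / v j) :=
      prod_nonneg fun j _ => mul_nonneg (by positivity) (div_nonneg (hgv j) (Nat.cast_nonneg _))
    have h3 : 0 ≤ ∏ j, (2 : ℝ) ^ (u j).primeFactors.card / (u j : ℝ) :=
      prod_nonneg fun j _ => by positivity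
    positivity
  set m := ∏ j, mj c0 s v u j with hm
  have hmj1 : ∀ j, 1 ≤ mj c0 s v u j := fun j =>
    Nat.one_le_iff_ne_zero.2 (mj_ne_zero hs hv hu j)
  have hm1 : 1 ≤ m := Nat.succ_le_of_lt (prod_pos fun j _ => hmj1 j)
  have hm4 : m ^ 4 ≤ X := by
    refine le_trans ?_ hsvu
    have h1 : m ≤ (∏ j, s j * v j * u j) ^ 2 := by
      rw [← prod_pow]
      apply prod_le_prod'
      intro j _
      rw [mj_eq]
      have h1 := dv_pos (hs' j)
      have h3 := dv_pos (hu' j)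
      calc s j * v j ^ 2 * u j ≤ (s j * s j) * v j ^ 2 * (u j * u j) := by
            apply Nat.mul_le_mul
            · apply Nat.mul_le_mul_right
              nlinarith
            · nlinarith
        _ = (s j * v j * u j) ^ 2 := by ring
    calc m ^ 4 ≤ ((∏ j, s j * v j * u j) ^ 2) ^ 4 := Nat.pow_le_pow_left h1 4
      _ = (∏ j, s j * v j * u j) ^ 8 := by rw [← pow_mul]
  have hsq := (hgood t0 ht0).1
  -- factors
  set g : ℕ → ℝ := fun p => (p : ℝ) / ((p : ℝ) - (10 : ℕ)) with hg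
  have hg1 : ∀ p, z < p → 1 ≤ g p := by
    intro p hp
    have h1 : ((10 : ℕ) : ℝ) < p := by exact_mod_cast lt_of_le_of_lt hc hp
    rw [hg]
    simp only
    rw [le_div_iff₀ (by linarith)]
    have : (0 : ℝ) ≤ ((10 : ℕ) : ℝ) := Nat.cast_nonneg _
    linarith
  set Gm : ℝ := ∏ p ∈ m.primeFactors.filter (fun p => p ∈ PS z y), g p with hGm
  have hGm0 : 0 ≤ Gm := prod_nonneg fun p hp =>
    zero_le_one.trans (hg1 p (mem_PS.1 (mem_filter.1 hp).2).1.1)
  have hmul : ∀ w : ℕ, w ≠ 0 → ∏ p ∈ (m * w).primeFactors.filter (fun p => p ∈ PS z y), g p ≤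
      Gm * ∏ p ∈ w.primeFactors.filter (fun p => z < p), g p := by
    intro w hw
    have e1 : (m * w).primeFactors.filter (fun p => p ∈ PS z y) =
        m.primeFactors.filter (fun p => p ∈ PS z y) ∪
          (w.primeFactors.filter (fun p => p ∈ PS z y) \
            m.primeFactors.filter (fun p => p ∈ PS z y)) := by
      rw [union_sdiff_self_eq_union, Nat.primeFactors_mul (by omega) hw, filter_union]
    rw [e1, prod_union disjoint_sdiff]
    apply mul_le_mul_of_nonneg_left _ hGm0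
    have e2 : (w.primeFactors.filter (fun p => p ∈ PS z y) \
        m.primeFactors.filter (fun p => p ∈ PS z y)) ⊆
        w.primeFactors.filter (fun p => z < p) := by
      intro p hp
      rw [mem_sdiff, mem_filter] at hp
      rw [mem_filter]
      exact ⟨hp.1.1, (mem_PS.1 hp.1.2).1.1⟩
    rw [← prod_sdiff e2]
    apply le_mul_of_one_le_left
    · exact prod_nonneg fun p hp => zero_le_one.trans (hg1 p (mem_filter.1 (e2 hp)).2)
    · have h1 : ∀ p ∈ w.primeFactors.filter (fun p => z < p) \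
          (w.primeFactors.filter (fun p => p ∈ PS z y) \
            m.primeFactors.filter (fun p => p ∈ PS z y)), (1 : ℝ) ≤ g p := by
        intro p hp
        exact hg1 p (mem_filter.1 (mem_sdiff.1 hp).1).2
      calc (1 : ℝ) = ∏ p ∈ w.primeFactors.filter (fun p => z < p) \
          (w.primeFactors.filter (fun p => p ∈ PS z y) \
            m.primeFactors.filter (fun p => p ∈ PS z y)), (1 : ℝ) := by simp
        _ ≤ _ := prod_le_prod (fun _ _ => zero_le_one) h1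
  -- bound for a fixed second variable
  have hfib : ∀ w ∈ Icc 1 X, ((T.filter (fun t : ℕ × ℕ => t.2 = w)).card : ℝ) ≤
      PI * (C * (X / m) * (Gm * ∏ p ∈ w.primeFactors.filter (fun p => z < p), g p) /
        (Real.log y) ^ 7) := by
    intro w hw
    rw [mem_Icc] at hw
    have hw0 : w ≠ 0 := by omega
    obtain ⟨Bd, hBd⟩ : ∃ Bd : ℝ, Bd = C * (X / m) *
      (Gm * ∏ p ∈ w.primeFactors.filter (fun p => z < p), g p) / (Real.log y) ^ 7 := ⟨_, rfl⟩
    rw [← hBd]
    have hbd : ∀ r : ℕ, (((Icc 1 X).filter (fun x : ℕ => x ≡ r [MOD m] ∧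
        ∀ p ∈ PS z y, ¬ p ∣ m * w →
        ∀ j, ¬ (p : ℤ) ∣ f8 x (e * (w : ℤ) + 2 * x) j)).card : ℝ) ≤ Bd := by
      intro r
      rw [hBd]
      refine (hSV X y hy0 hzy hX e (w : ℤ) m (m * w) r he hm1
        (dvd_mul_right _ _) (mul_ne_zero (by omega) hw0) hm4 (fun p _ hp h => hp
          ((Int.natCast_dvd_natCast.1 h).mul_left m))).trans ?_
      apply div_le_div_of_nonneg_right _ hlog
      apply mul_le_mul_of_nonneg_left (hmul w hw0)
      positivity
    have hBd0 : 0 ≤ Bd := le_trans (Nat.cast_nonneg _) (hbd 0)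
    rcases (T.filter (fun t : ℕ × ℕ => t.2 = w)).eq_empty_or_nonempty with he' | ⟨r, hr⟩
    · rw [he', card_empty, Nat.cast_zero]
      exact mul_nonneg hPI0 hBd0
    · have hr' := mem_filter.1 hr
      have gr := hgood r hr'.1
      rw [hr'.2] at gr
      have hww : ∀ p : ℕ, p.Prime → ∀ j, p ∣ mj c0 s v u j → ¬ p ∣ w := by
        intro p hp j hj
        have h1 := gr.1.fmj hu hzy hp hj
        exact ndvd_w gr.2 hp (by omega) h1.2
      have hpi := card_pi (x := (r.1 : ℤ)) (by omega : 7 ≤ z) he hs hv hu hzy hww gr.1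
      rw [← hPI, ← hm] at hpi
      have hmaps : ∀ t ∈ T.filter (fun t : ℕ × ℕ => t.2 = w),
          (fun (t : ℕ × ℕ) (p : ℕ) (_ : p ∈ m.primeFactors) => t.1 % p) t ∈
            Finset.pi m.primeFactors (fun p => Z8 e w s v u p) := by
        intro t ht
        rw [mem_filter] at ht
        have gt := hgood t ht.1
        rw [ht.2] at gt
        rw [Finset.mem_pi]
        intro p hp
        have hpp := Nat.prime_of_mem_primeFactors hp
        have : Fact p.Prime := ⟨hpp⟩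
        unfold Z8
        rw [mem_filter, mem_range]
        refine ⟨Nat.mod_lt _ hpp.pos, fun j hj => ?_⟩
        have h1 := (gt.1.fmj hu hzy hpp hj).2
        rw [dvd_g8] at h1 ⊢
        push_cast at h1 ⊢
        exact h1
      have hcardpi : ((Finset.pi m.primeFactors (fun p => Z8 e w s v u p)).card : ℝ) ≤ PI := by
        rw [Finset.card_pi]
        push_cast
        exact hpi
      rw [card_eq_sum_card_fiberwise (f := fun (t : ℕ × ℕ) (p : ℕ) (_ : p ∈ m.primeFactors) =>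
        t.1 % p) (t := Finset.pi m.primeFactors (fun p => Z8 e w s v u p)) hmaps, Nat.cast_sum]
      have hone : ∀ φ ∈ Finset.pi m.primeFactors (fun p => Z8 e w s v u p),
          (((T.filter (fun t : ℕ × ℕ => t.2 = w)).filter (fun t : ℕ × ℕ =>
            (fun (t : ℕ × ℕ) (p : ℕ) (_ : p ∈ m.primeFactors) => t.1 % p) t = φ)).card : ℝ) ≤
            Bd := by
        intro φ _
        rcases ((T.filter (fun t : ℕ × ℕ => t.2 = w)).filter (fun t : ℕ × ℕ =>
            (fun (t : ℕ × ℕ) (p : ℕ) (_ : p ∈ m.primeFactors) => t.1 % p) t =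
              φ)).eq_empty_or_nonempty with he2 | ⟨q, hq⟩
        · rw [he2, card_empty, Nat.cast_zero]
          exact hBd0
        · refine le_trans ?_ (hbd q.1)
          have hq1 := mem_filter.1 hq
          have hq2 := mem_filter.1 hq1.1
          have gq := hgood q hq2.1
          rw [hq2.2] at gq
          rw [Nat.cast_le]
          apply card_le_card_of_injOn (fun t : ℕ × ℕ => t.1)
          · intro t ht
            have ht1 := mem_filter.1 (Finset.mem_coe.1 ht)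
            have ht2 := mem_filter.1 ht1.1
            have gt := hgood t ht2.1
            have htX : t.1 ∈ Icc 1 X := (mem_product.1 (mem_filter.1 ht2.1).1).1
            rw [ht2.2] at gt
            simp only [coe_filter, Set.mem_ofPred_eq]
            refine ⟨htX, ?_, ?_⟩
            · have h1 : ((m : ℕ) : ℤ) ∣ (t.1 : ℤ) - (q.1 : ℤ) := by
                rw [hm]
                refine cong8 (by omega) he hs hv hu hzy (fun p hp j hj => hww p hp j (by
                  rw [mj_eq]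
                  exact (((hj.pow two_ne_zero).mul_left _).mul_right _))) gt.1 gq.1 ?_
                intro p hp hpm
                have hpm' : p ∈ m.primeFactors := Nat.mem_primeFactors.2 ⟨hp, hpm, by omega⟩
                have h2 : t.1 % p = q.1 % p := by
                  have h3 := congrFun (congrFun ht1.2 p) hpm'
                  have h4 := congrFun (congrFun hq1.2 p) hpm'
                  simp only at h3 h4
                  rw [h3, h4]
                exact (Nat.modEq_iff_dvd.1 (show q.1 ≡ t.1 [MOD p] from h2.symm))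
              exact ((Nat.modEq_iff_dvd.2 h1)).symm
            · intro p hpP hpm j hpf
              have hp := (mem_PS.1 hpP).2
              apply hpm
              apply Dvd.dvd.mul_right
              rw [hm]
              refine Dvd.dvd.trans ?_ (dvd_prod_of_mem _ (mem_univ j))
              rw [mj_eq]
              by_cases h2 : (p : ℤ) ^ 2 ∣ f8 (t.1 : ℤ) (e * (w : ℤ) + 2 * (t.1 : ℤ)) j
              · have h3 : p ∣ v j := by
                  rw [← gt.1.hv]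
                  exact (dvd_S2 hp).2 ⟨hpP, h2⟩
                exact (((h3.pow two_ne_zero).mul_left _).mul_right _)
              · have h3 : p ∣ s j := by
                  rw [← gt.1.hs]
                  exact (dvd_S1 hp).2 ⟨hpP, hpf, h2⟩
                exact ((h3.mul_right _).mul_right _)
          · intro a ha b hb hab
            have ha1 := mem_filter.1 (mem_filter.1 (Finset.mem_coe.1 ha)).1
            have hb1 := mem_filter.1 (mem_filter.1 (Finset.mem_coe.1 hb)).1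
            exact Prod.ext hab (ha1.2.trans hb1.2.symm)
      refine (sum_le_sum hone).trans ?_
      rw [sum_const, nsmul_eq_mul]
      exact mul_le_mul_of_nonneg_right hcardpi hBd0
  have hcard : (T.card : ℝ) ≤ ∑ w ∈ Icc 1 X,
      PI * (C * (X / m) * (Gm * ∏ p ∈ w.primeFactors.filter (fun p => z < p), g p) /
        (Real.log y) ^ 7) := by
    rw [card_eq_sum_card_fiberwise (f := fun t : ℕ × ℕ => t.2) (t := Icc 1 X)
      (fun t ht => (mem_product.1 (mem_filter.1 ht).1).2)]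
    rw [Nat.cast_sum]
    exact sum_le_sum fun w hw => hfib w hw
  have hsum : ∑ w ∈ Icc 1 X,
      PI * (C * (X / m) * (Gm * ∏ p ∈ w.primeFactors.filter (fun p => z < p), g p) /
        (Real.log y) ^ 7) ≤
      PI * (C * (X / m) * (Gm * (CA * X)) / (Real.log y) ^ 7) := by
    rw [← mul_sum, ← sum_div, ← mul_sum, ← mul_sum]
    apply mul_le_mul_of_nonneg_left _ hPI0
    apply div_le_div_of_nonneg_right _ hlog
    apply mul_le_mul_of_nonneg_left _ (by positivity)
    exact mul_le_mul_of_nonneg_left (hav X) hGm0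
  refine hcard.trans (hsum.trans ?_)
  have hGmeq : Gm = ∏ j, ((s j * gw 1 10 (s j)) * (v j * gw 1 10 (v j))) :=
    prod_pr8 hs hv hu hsq 10
  have hterm : ∀ j, ((∏ p ∈ (s j).primeFactors, (1 + Jr (D8 j) p)) *
      2 ^ (v j).primeFactors.card * 2 ^ (u j).primeFactors.card) * ((s j *
      gw 1 10 (s j)) * (v j * gw 1 10 (v j))) / ((mj c0 s v u j : ℕ) : ℝ) =
      (gw 1 10 (s j) * ∏ p ∈ (s j).primeFactors, (1 + Jr (D8 j) p)) *
      (2 ^ (v j).primeFactors.card * (gw 1 10 (v j) / v j)) *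
      (2 ^ (u j).primeFactors.card / (u j : ℝ)) := by
    intro j
    have h1 : (s j : ℝ) ≠ 0 := Nat.cast_ne_zero.2 (dv_ne_zero (hs' j))
    have h2 : (v j : ℝ) ≠ 0 := Nat.cast_ne_zero.2 (dv_ne_zero (hv' j))
    have h3 : (u j : ℝ) ≠ 0 := Nat.cast_ne_zero.2 (dv_ne_zero (hu' j))
    rw [mj_eq]
    rw [Nat.cast_mul, Nat.cast_mul, Nat.cast_pow]
    field_simp
  have hprod : PI * (∏ j, ((s j * gw 1 10 (s j)) * (v j * gw 1 10 (v j)))) /
      (∏ j, ((mj c0 s v u j : ℕ) : ℝ)) =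
      (∏ j, gw 1 10 (s j) * ∏ p ∈ (s j).primeFactors, (1 + Jr (D8 j) p)) *
        (∏ j, 2 ^ (v j).primeFactors.card * (gw 1 10 (v j) / v j)) *
        (∏ j, 2 ^ (u j).primeFactors.card / (u j : ℝ)) := by
    rw [hPI, ← prod_mul_distrib, ← prod_div_distrib, ← prod_mul_distrib, ← prod_mul_distrib]
    exact prod_congr rfl fun j _ => hterm j
  apply le_of_eq
  rw [show C * CA * X ^ 2 * (∏ j, gw 1 10 (s j) * ∏ p ∈ (s j).primeFactors, (1 + Jr (D8 j) p)) *
        (∏ j, 2 ^ (v j).primeFactors.card * (gw 1 10 (v j) / v j)) *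
        (∏ j, 2 ^ (u j).primeFactors.card / (u j : ℝ)) =
      C * CA * X ^ 2 * ((∏ j, gw 1 10 (s j) * ∏ p ∈ (s j).primeFactors, (1 + Jr (D8 j) p)) *
        (∏ j, 2 ^ (v j).primeFactors.card * (gw 1 10 (v j) / v j)) *
        (∏ j, 2 ^ (u j).primeFactors.card / (u j : ℝ))) by ring, ← hprod,
    hGmeq, hm, Nat.cast_prod]
  ring

/-- CNT8 -/
theorem cnt8 (z : ℕ) (hz : 22 ≤ z) : ∃ (C : ℝ) (K y0 : ℕ), 0 ≤ C ∧ 1 ≤ K ∧
  ∀ X y Y : ℕ, y0 ≤ y → z < y → y ^ K ≤ X → ∀ e : ℤ, (e = 1 ∨ e = -1) →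
  ∀ s ∈ Tup (Fin 7) z y, ∀ v ∈ Tup (Fin 7) z y, ∀ u ∈ Tup (Fin 7) y Y,
    (∏ j, s j * v j * u j) ^ 8 ≤ X →
    (((Icc 1 X ×ˢ Icc 1 X).filter (fun t : ℕ × ℕ => t.1.Coprime t.2 ∧
      S1 z y (f8 (t.1 : ℤ) (e * (t.2 : ℤ) + 2 * (t.1 : ℤ))) = s ∧
      S2 z y (f8 (t.1 : ℤ) (e * (t.2 : ℤ) + 2 * (t.1 : ℤ))) = v ∧
      ∀ j, (u j : ℤ) ∣ f8 (t.1 : ℤ) (e * (t.2 : ℤ) + 2 * (t.1 : ℤ)) j)).card : ℝ) ≤
      C * X ^ 2 * (∏ j, gw 1 10 (s j) * ∏ p ∈ (s j).primeFactors, (1 + Jr (D8 j) p)) *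
        (∏ j, 4 ^ (v j).primeFactors.card * (gw 1 10 (v j) / v j)) *
        (∏ j, 2 ^ (u j).primeFactors.card / (u j : ℝ)) / (Real.log y) ^ 7 := by
  obtain ⟨C, K, y0, hC, hK, h⟩ := cnt8' z hz
  refine ⟨C, K, y0, hC, hK, ?_⟩
  intro X y Y hy0 hzy hX e he s hs v hv u hu hsvu
  refine (h X y Y hy0 hzy hX e he s hs v hv u hu hsvu).trans ?_
  have hs' := (mem_Tup'.1 hs).1
  have hv' := (mem_Tup'.1 hv).1
  have hc : 10 ≤ z := by omega
  have hgs : ∀ j, 0 ≤ gw 1 10 (s j) := fun j => gw_nonneg zero_le_one hc (hs' j)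
  have hgv : ∀ j, 0 ≤ gw 1 10 (v j) := fun j => gw_nonneg zero_le_one hc (hv' j)
  apply div_le_div_of_nonneg_right _ (pow_nonneg (Real.log_natCast_nonneg y) _)
  apply mul_le_mul_of_nonneg_right _ (prod_nonneg fun j _ => by positivity)
  apply mul_le_mul_of_nonneg_left
  · apply prod_le_prod
    · intro j _
      exact mul_nonneg (by positivity) (div_nonneg (hgv j) (Nat.cast_nonneg _))
    · intro j _
      apply mul_le_mul_of_nonneg_right _ (div_nonneg (hgv j) (Nat.cast_nonneg _))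
      exact pow_le_pow_left₀ (by norm_num) (by norm_num) _
  · apply mul_nonneg (by positivity)
    exact prod_nonneg fun j _ => mul_nonneg (hgs j) (prod_nonneg fun p _ => jr_nonneg _ _)

end Pool.Agent.V7H54.C8
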