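import Mathlib

/-!
# The seven forms of the `Z/2 x Z/8` parametrisation: roots modulo `p`
-/

set_option autoImplicit false

namespace Pool.Agent.V7H54.C8

open Finset

/-- the forms over a commutative ring -/
def g8 {R : Type} [CommRing R] (a b : R) : Fin 7 → R :=
  ![a, b, a - b, a + b, a ^ 2 - 2 * a * b - b ^ 2, a ^ 2 + 2 * a * b - b ^ 2, a ^ 2 + b ^ 2]

/-- the forms -/
def f8 (a b : ℤ) : Fin 7 → ℤ :=
  ![a, b, a - b, a + b, a ^ 2 - 2 * a * b - b ^ 2, a ^ 2 + 2 * a * b - b ^ 2, a ^ 2 + b ^ 2]

/-- the discriminants, up to squares (`0` for the linear forms) -/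
def D8 : Fin 7 → ℤ := ![0, 0, 0, 0, 2, 2, -1]

lemma cast_f8 {R : Type} [CommRing R] (a b : ℤ) (j : Fin 7) :
    ((f8 a b j : ℤ) : R) = g8 (a : R) (b : R) j := by
  fin_cases j <;> simp [f8, g8]

section uniq
variable {K : Type} [Field K]

lemma sq0 (h2 : (2 : K) ≠ 0) {x : K} (h : 2 * x ^ 2 = 0) : x = 0 := by
  rcases mul_eq_zero.1 h with h | h
  · exact absurd h h2
  · exact pow_eq_zero_iff two_ne_zero |>.1 h

/-- two different forms have no common zero -/
lemma uniq_lt (h2 : (2 : K) ≠ 0) {A B : K} (hAB : ¬ (A = 0 ∧ B = 0)) {j l : Fin 7} (hjl : j < l)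
    (hj : g8 A B j = 0) (hl : g8 A B l = 0) : False := by
  apply hAB
  have hq : ∀ x : K, 2 * x ^ 2 = 0 → x = 0 := fun x => sq0 h2
  have hs : ∀ x : K, x ^ 2 = 0 → x = 0 := fun x h => pow_eq_zero_iff two_ne_zero |>.1 h
  have key : ∀ x y : K, 2 * (x * y) = 0 → x = 0 ∨ y = 0 := by
    intro x y h
    rcases mul_eq_zero.1 h with h | h
    · exact absurd h h2
    · exact mul_eq_zero.1 h
  fin_cases j <;> fin_cases l <;> simp [g8] at hjl hj hl
  · exact ⟨hj, hl⟩
  · exact ⟨hj, by linear_combination hj - hl⟩
  · exact ⟨hj, by linear_combination hl - hj⟩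
  · subst hj
    exact ⟨rfl, hs B (by linear_combination -hl)⟩
  · subst hj
    exact ⟨rfl, hs B (by linear_combination -hl)⟩
  · subst hj
    exact ⟨rfl, hs B (by linear_combination hl)⟩
  · exact ⟨by linear_combination hj + hl, hj⟩
  · exact ⟨by linear_combination hl - hj, hj⟩
  · subst hj
    exact ⟨hs A (by linear_combination hl), rfl⟩
  · subst hj
    exact ⟨hs A (by linear_combination hl), rfl⟩
  · subst hj
    exact ⟨hs A (by linear_combination hl), rfl⟩
  · have h : A = 0 := by
      have h3 : 2 * A = 0 := by linear_combination hj + hl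
      rcases mul_eq_zero.1 h3 with h | h
      · exact absurd h h2
      · exact h
    exact ⟨h, by linear_combination h - hj⟩
  · have h : A = 0 := hq A (by linear_combination (3 * A + B) * hj - hl)
    exact ⟨h, by linear_combination h - hj⟩
  · have h : A = 0 := hq A (by linear_combination (A - B) * hj + hl)
    exact ⟨h, by linear_combination h - hj⟩
  · have h : A = 0 := hq A (by linear_combination (A + B) * hj + hl)
    exact ⟨h, by linear_combination h - hj⟩
  · have h : A = 0 := hq A (by linear_combination (A + B) * hj + hl)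
    exact ⟨h, by linear_combination hj - h⟩
  · have h : A = 0 := hq A (by linear_combination (3 * A - B) * hj - hl)
    exact ⟨h, by linear_combination hj - h⟩
  · have h : A = 0 := hq A (by linear_combination (A - B) * hj + hl)
    exact ⟨h, by linear_combination hj - h⟩
  · rcases key A (2 * B) (by linear_combination hl - hj) with h | h
    · subst h
      exact ⟨rfl, hs B (by linear_combination -hj)⟩
    · rcases mul_eq_zero.1 h with h | h
      · exact absurd h h2
      · subst h
        exact ⟨hs A (by linear_combination hj), rfl⟩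
  · rcases key A (A - B) (by linear_combination hj + hl) with h | h
    · subst h
      exact ⟨rfl, hs B (by linear_combination hl)⟩
    · have h' : A = 0 := hq A (by linear_combination (A + B) * h + hl)
      exact ⟨h', by linear_combination h' - h⟩
  · rcases key A (A + B) (by linear_combination hj + hl) with h | h
    · subst h
      exact ⟨rfl, hs B (by linear_combination hl)⟩
    · have h' : A = 0 := hq A (by linear_combination (A - B) * h + hl)
      exact ⟨h', by linear_combination h - h'⟩

/-- two different forms have no common zero -/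
lemma uniq (h2 : (2 : K) ≠ 0) {A B : K} (hAB : ¬ (A = 0 ∧ B = 0)) {j l : Fin 7}
    (hj : g8 A B j = 0) (hl : g8 A B l = 0) : j = l := by
  rcases lt_trichotomy j l with h | h | h
  · exact (uniq_lt h2 hAB h hj hl).elim
  · exact h
  · exact (uniq_lt h2 hAB h hl hj).elim

end uniq

end Pool.Agent.V7H54.C8
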