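import Pool.Agent.V7H54.C8.Roots
import Pool.Agent.W29.RT.CNT2

/-!
# The seven forms of the `Z/2 x Z/8` parametrisation: congruences
-/

set_option autoImplicit false

namespace Pool.Agent.V7H54.C8

open Finset Pool.Agent.W262.RK Pool.Agent.W307.RT
open Pool.Agent.W29.RT (dvd_S1 dvd_S2 G2 c0 mj_eq)
open Pool.Agent.W372.RK2 (mem_Tup' sq_pow_dvd mj mj_primes prod_gw)

lemma dvd_g8 {p : ℕ} [Fact p.Prime] (a b : ℤ) (j : Fin 7) :
    (p : ℤ) ∣ f8 a b j ↔ g8 (a : ZMod p) (b : ZMod p) j = 0 := by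
  rw [← cast_f8, ZMod.intCast_zmod_eq_zero_iff_dvd]

lemma num_ne {p : ℕ} (h7 : 7 < p) (n : ℕ) (h1 : 0 < n) (h2 : n ≤ 7) : ((n : ℕ) : ZMod p) ≠ 0 := by
  intro h
  rw [ZMod.natCast_eq_zero_iff] at h
  have := Nat.le_of_dvd h1 h
  omega

/-- a prime greater than 7 that divides a value does not divide the second variable -/
lemma ndvd_w {x w : ℕ} {e : ℤ} (hc : x.Coprime w) {p : ℕ} (hp : p.Prime) (h7 : 7 < p) {j : Fin 7}
    (h : (p : ℤ) ∣ f8 (x : ℤ) (e * (w : ℤ) + 2 * (x : ℤ)) j) : ¬ p ∣ w := by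
  have : Fact p.Prime := ⟨hp⟩
  intro hw
  rw [dvd_g8] at h
  push_cast at h
  have hw' : (w : ZMod p) = 0 := (ZMod.natCast_eq_zero_iff _ _).2 hw
  rw [hw', mul_zero, zero_add] at h
  have h2 : (2 : ZMod p) ≠ 0 := by exact_mod_cast num_ne h7 2 (by norm_num) (by norm_num)
  have h3 : (3 : ZMod p) ≠ 0 := by exact_mod_cast num_ne h7 3 (by norm_num) (by norm_num)
  have h5 : (5 : ZMod p) ≠ 0 := by exact_mod_cast num_ne h7 5 (by norm_num) (by norm_num)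
  have h7' : (7 : ZMod p) ≠ 0 := by exact_mod_cast num_ne h7 7 (by norm_num) (by norm_num)
  have key : ∀ (c : ZMod p) (k : ℕ), k ≠ 0 → c ≠ 0 → c * (x : ZMod p) ^ k = 0 →
      (x : ZMod p) = 0 := by
    intro c k hk hc h
    rcases mul_eq_zero.1 h with h | h
    · exact absurd h hc
    · exact (pow_eq_zero_iff hk).1 h
  have hx : (x : ZMod p) = 0 := by
    obtain ⟨A, hA⟩ : ∃ A : ZMod p, A = (x : ZMod p) := ⟨_, rfl⟩
    rw [← hA] at h key ⊢
    fin_cases j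
    · have h' : A = 0 := h
      exact h'
    · have h' : 2 * A = 0 := h
      exact key 2 1 one_ne_zero h2 (by linear_combination h')
    · have h' : A - 2 * A = 0 := h
      exact key 1 1 one_ne_zero one_ne_zero (by linear_combination -h')
    · have h' : A + 2 * A = 0 := h
      exact key 3 1 one_ne_zero h3 (by linear_combination h')
    · have h' : A ^ 2 - 2 * A * (2 * A) - (2 * A) ^ 2 = 0 := h
      exact key 7 2 two_ne_zero h7' (by linear_combination -h')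
    · have h' : A ^ 2 + 2 * A * (2 * A) - (2 * A) ^ 2 = 0 := h
      exact key 1 2 two_ne_zero one_ne_zero (by linear_combination h')
    · have h' : A ^ 2 + (2 * A) ^ 2 = 0 := h
      exact key 5 2 two_ne_zero h5 (by linear_combination h')
  have hx' : p ∣ x := (ZMod.natCast_eq_zero_iff _ _).1 hx
  have := Nat.dvd_gcd hx' hw
  rw [hc] at this
  exact hp.one_lt.ne' (Nat.dvd_one.1 this)

/-- a prime greater than 7 divides at most one value -/
lemma un8 {x w : ℕ} {e : ℤ} (he : e = 1 ∨ e = -1) (hc : x.Coprime w) {p : ℕ} (hp : p.Prime)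
    (h7 : 7 < p) {j l : Fin 7}
    (hj : (p : ℤ) ∣ f8 (x : ℤ) (e * (w : ℤ) + 2 * (x : ℤ)) j)
    (hl : (p : ℤ) ∣ f8 (x : ℤ) (e * (w : ℤ) + 2 * (x : ℤ)) l) : j = l := by
  have : Fact p.Prime := ⟨hp⟩
  have hw := ndvd_w hc hp h7 hj
  rw [dvd_g8] at hj hl
  have h2 : (2 : ZMod p) ≠ 0 := by exact_mod_cast num_ne h7 2 (by norm_num) (by norm_num)
  refine uniq h2 ?_ hj hl
  rintro ⟨h3, h4⟩
  push_cast at h3 h4
  rw [h3, mul_zero, add_zero] at h4
  have hw' : (w : ZMod p) ≠ 0 := fun h => hw ((ZMod.natCast_eq_zero_iff _ _).1 h)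
  rcases he with h | h <;> rw [h] at h4 <;> simp at h4 <;> exact hw' h4

lemma lift_aux {p : ℕ} (hp : p.Prime) {d H : ℤ} (hH : ¬ (p : ℤ) ∣ H) (h : (p : ℤ) ^ 2 ∣ d * H) :
    (p : ℤ) ^ 2 ∣ d := by
  have hpI : Prime (p : ℤ) := Nat.prime_iff_prime_int.1 hp
  have h1 : IsCoprime ((p : ℤ) ^ 2) H := ((Prime.coprime_iff_not_dvd hpI).2 hH).pow_left
  exact h1.dvd_of_dvd_mul_right h

lemma quad_aux {p : ℕ} (hp : p.Prime) (h7 : 7 < p) {w f f' H A d : ℤ} {k : ℤ}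
    (hw : ¬ (p : ℤ) ∣ w) (hf : (p : ℤ) ∣ f) (hd : (p : ℤ) ∣ d) (h1 : f' = H + A * d)
    (h2 : f' ^ 2 = k * f + 8 * w ^ 2 ∨ f' ^ 2 = k * f - 4 * w ^ 2) : ¬ (p : ℤ) ∣ H := by
  have hpI : Prime (p : ℤ) := Nat.prime_iff_prime_int.1 hp
  intro hH
  have h3 : (p : ℤ) ∣ f' := by
    rw [h1]
    exact dvd_add hH (hd.mul_left _)
  have h4 : (p : ℤ) ∣ 8 * w ^ 2 := by
    rcases h2 with h | h
    · have : 8 * w ^ 2 = f' ^ 2 - k * f := by linarith
      rw [this]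
      exact dvd_sub (dvd_pow h3 two_ne_zero) (hf.mul_left _)
    · have : 8 * w ^ 2 = 2 * (k * f - f' ^ 2) := by linarith
      rw [this]
      exact (dvd_sub (hf.mul_left _) (dvd_pow h3 two_ne_zero)).mul_left _
  rcases hpI.dvd_or_dvd h4 with h | h
  · have h5 : (p : ℤ) ∣ ((8 : ℕ) : ℤ) := by exact_mod_cast h
    have h6 : p ∣ 2 ^ 3 := by exact_mod_cast h5
    have h8 := Nat.le_of_dvd (by norm_num) (hp.dvd_of_dvd_pow h6)
    omega
  · exact hw (hpI.dvd_of_dvd_pow h)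

lemma lift_of {p : ℕ} (hp : p.Prime) {a b d : ℤ} (h1 : (p : ℤ) ^ 2 ∣ a) (h2 : (p : ℤ) ^ 2 ∣ b)
    (H : ℤ) (hab : a - b = d * H) (hH : ¬ (p : ℤ) ∣ H) : (p : ℤ) ^ 2 ∣ d := by
  apply lift_aux hp hH
  rw [← hab]
  exact dvd_sub h1 h2

/-- the root modulo `p ^ 2` above a root modulo `p` is unique -/
lemma lift8 {p : ℕ} (hp : p.Prime) (h7 : 7 < p) {e x x' w : ℤ} (he : e = 1 ∨ e = -1)
    (hw : ¬ (p : ℤ) ∣ w) {j : Fin 7} (h1 : (p : ℤ) ^ 2 ∣ f8 x (e * w + 2 * x) j)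
    (h2 : (p : ℤ) ^ 2 ∣ f8 x' (e * w + 2 * x') j) (h3 : (p : ℤ) ∣ x - x') :
    (p : ℤ) ^ 2 ∣ x - x' := by
  have hEE : e * e = 1 := by
    rcases he with h | h <;> rw [h] <;> ring
  have hf : (p : ℤ) ∣ f8 x (e * w + 2 * x) j := (dvd_pow_self (p : ℤ) two_ne_zero).trans h1
  have small : ∀ n : ℕ, 0 < n → n ≤ 7 → ¬ (p : ℤ) ∣ (n : ℤ) := by
    intro n h1 h2 h
    have := Nat.le_of_dvd h1 (Int.natCast_dvd_natCast.1 h)
    omega
  fin_cases j
  · exact lift_of hp h1 h2 1 (by change x - x' = _; ring) (small 1 (by norm_num) (by norm_num))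
  · exact lift_of hp h1 h2 2 (by change (e * w + 2 * x) - (e * w + 2 * x') = _; ring)
      (small 2 (by norm_num) (by norm_num))
  · refine lift_of hp h1 h2 (-1) (by
      change (x - (e * w + 2 * x)) - (x' - (e * w + 2 * x')) = _; ring) ?_
    rw [dvd_neg]
    exact small 1 (by norm_num) (by norm_num)
  · exact lift_of hp h1 h2 3 (by
      change (x + (e * w + 2 * x)) - (x' + (e * w + 2 * x')) = _; ring)
      (small 3 (by norm_num) (by norm_num))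
  · refine lift_of hp h1 h2 (-7 * (x + x') - 6 * e * w) (by
      change (x ^ 2 - 2 * x * (e * w + 2 * x) - (e * w + 2 * x) ^ 2) -
        (x' ^ 2 - 2 * x' * (e * w + 2 * x') - (e * w + 2 * x') ^ 2) = _; ring) ?_
    have hf' : (p : ℤ) ∣ x ^ 2 - 2 * x * (e * w + 2 * x) - (e * w + 2 * x) ^ 2 := hf
    exact quad_aux hp h7 (f' := -14 * x - 6 * e * w) (A := -7) (k := -28) hw hf' h3 (by ring)
      (Or.inl (by linear_combination (8 * w ^ 2) * hEE))
  · refine lift_of hp h1 h2 ((x + x') - 2 * e * w) (by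
      change (x ^ 2 + 2 * x * (e * w + 2 * x) - (e * w + 2 * x) ^ 2) -
        (x' ^ 2 + 2 * x' * (e * w + 2 * x') - (e * w + 2 * x') ^ 2) = _; ring) ?_
    have hf' : (p : ℤ) ∣ x ^ 2 + 2 * x * (e * w + 2 * x) - (e * w + 2 * x) ^ 2 := hf
    exact quad_aux hp h7 (f' := 2 * x - 2 * e * w) (A := 1) (k := 4) hw hf' h3 (by ring)
      (Or.inl (by linear_combination (8 * w ^ 2) * hEE))
  · refine lift_of hp h1 h2 (5 * (x + x') + 4 * e * w) (by
      change (x ^ 2 + (e * w + 2 * x) ^ 2) - (x' ^ 2 + (e * w + 2 * x') ^ 2) = _; ring) ?_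
    have hf' : (p : ℤ) ∣ x ^ 2 + (e * w + 2 * x) ^ 2 := hf
    exact quad_aux hp h7 (f' := 10 * x + 4 * e * w) (A := 5) (k := 20) hw hf' h3 (by ring)
      (Or.inr (by linear_combination (-4 * w ^ 2) * hEE))

end Pool.Agent.V7H54.C8
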