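import Pool.Agent.V7H54.C8.Roots
import Pool.Agent.W21.RK.SVproof
import Pool.Agent.H474R2.PG.MertensF

/-!
# The seven forms of the `Z/2 x Z/8` parametrisation: the sieve product
-/

set_option autoImplicit false

namespace Pool.Agent.V7H54.C8

open Finset Pool.Agent.W262.RK
open Pool.Agent.W21.RK (mem_PS)

section irr
open Polynomial

lemma r2_rho (D : ℤ) (p : ℕ) : r2 D p = Pool.Agent.H474R2.PG.rho (X ^ 2 - C D) p := by
  unfold r2 Pool.Agent.H474R2.PG.rho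
  congr 1
  apply filter_congr
  intro a _
  simp

lemma deg2 (D : ℤ) : (X ^ 2 - C D : ℤ[X]).natDegree = 2 := natDegree_X_pow_sub_C

lemma irr (D : ℤ) (hD : ∀ b : ℤ, b ^ 2 ≠ D) : Irreducible (X ^ 2 - C D : ℤ[X]) := by
  have hm : (X ^ 2 - C D : ℤ[X]).Monic := monic_X_pow_sub_C D two_ne_zero
  rw [hm.irreducible_iff_roots_eq_zero_of_degree_le_three (by rw [deg2]) (by rw [deg2]; norm_num)]
  rw [Multiset.eq_zero_iff_forall_notMem]
  intro b hb
  rw [mem_roots hm.ne_zero, IsRoot.def] at hb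
  simp only [eval_sub, eval_pow, eval_X, eval_C] at hb
  exact hD b (by linarith)

end irr

lemma low_aux (r : ℕ → ℕ) (z : ℕ) (C0 : ℝ) (h : ∀ y : ℕ, 3 ≤ y →
      Real.log (Real.log y) - C0 ≤ ∑ p ∈ (Finset.Icc 1 y).filter Nat.Prime, (r p : ℝ) / p) :
    ∃ C : ℝ, ∀ y : ℕ, 3 ≤ y → z < y →
      Real.log (Real.log y) - C ≤ ∑ p ∈ PS z y, (r p : ℝ) / p := by
  refine ⟨C0 + ∑ p ∈ (Finset.Icc 1 z).filter Nat.Prime, (r p : ℝ) / p, fun y hy hzy => ?_⟩
  have hm := h y hy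
  have hsplit : ∑ p ∈ (Finset.Icc 1 y).filter Nat.Prime, (r p : ℝ) / p =
      ∑ p ∈ (Finset.Icc 1 z).filter Nat.Prime, (r p : ℝ) / p + ∑ p ∈ PS z y, (r p : ℝ) / p := by
    rw [← sum_union]
    · congr 1
      ext p
      rw [mem_union, mem_filter, mem_filter, mem_Icc, mem_Icc, mem_PS]
      constructor
      · rintro ⟨⟨h1, h2⟩, h3⟩
        rcases Nat.lt_or_ge z p with h | h
        · exact Or.inr ⟨⟨h, h2⟩, h3⟩
        · exact Or.inl ⟨⟨h1, h⟩, h3⟩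
      · rintro (⟨⟨h1, h2⟩, h3⟩ | ⟨⟨h1, h2⟩, h3⟩)
        · exact ⟨⟨h1, by omega⟩, h3⟩
        · exact ⟨⟨by omega, h2⟩, h3⟩
    · rw [disjoint_left]
      intro p hp hp'
      rw [mem_filter, mem_Icc] at hp
      rw [mem_PS] at hp'
      omega
  linarith

lemma low_one (z : ℕ) : ∃ C : ℝ, ∀ y : ℕ, 3 ≤ y → z < y →
      Real.log (Real.log y) - C ≤ ∑ p ∈ PS z y, ((1 : ℕ) : ℝ) / p := by
  obtain ⟨C0, hC0⟩ := Pool.Agent.Helper256.KM.mertens_inv
  refine low_aux (fun _ => 1) z C0 (fun y hy => ?_)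
  have h1 := (abs_le.1 (hC0 y hy)).1
  simp only [Nat.cast_one]
  linarith

lemma low_r2 (z : ℕ) (D : ℤ) (hD : ∀ b : ℤ, b ^ 2 ≠ D) : ∃ C : ℝ, ∀ y : ℕ, 3 ≤ y → z < y →
      Real.log (Real.log y) - C ≤ ∑ p ∈ PS z y, (r2 D p : ℝ) / p := by
  obtain ⟨C0, hC0⟩ := Pool.Agent.H474R2.PG.mertens_lower _ (irr D hD) (by rw [deg2]; norm_num)
  refine low_aux (fun p => r2 D p) z C0 (fun y hy => ?_)
  have h1 := hC0 (y : ℝ) (by exact_mod_cast hy)
  unfold Pool.Agent.H474R2.PG.Sg Pool.Agent.H474R2.PG.PR at h1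
  rw [Nat.floor_natCast] at h1
  refine h1.trans (le_of_eq ?_)
  apply sum_congr rfl
  intro p _
  rw [r2_rho]

lemma low_R8 (z : ℕ) (j : Fin 7) : ∃ C : ℝ, ∀ y : ℕ, 3 ≤ y → z < y →
      Real.log (Real.log y) - C ≤ ∑ p ∈ PS z y, (R8 p j : ℝ) / p := by
  have h2 : ∀ b : ℤ, b ^ 2 ≠ 2 := by
    intro b hb
    have h1 : b < 2 := by nlinarith
    have h2 : -2 < b := by nlinarith
    interval_cases b <;> norm_num at hb
  have h1 : ∀ b : ℤ, b ^ 2 ≠ -1 := by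
    intro b hb
    nlinarith [sq_nonneg b]
  fin_cases j
  · exact low_one z
  · exact low_one z
  · exact low_one z
  · exact low_one z
  · exact low_r2 z 2 h2
  · exact low_r2 z 2 h2
  · exact low_r2 z (-1) h1

/-- the sieve product -/
lemma prod8 (z : ℕ) (hz : 22 ≤ z) : ∃ C : ℝ, 0 < C ∧ ∀ y : ℕ, 3 ≤ y → z < y →
    ∏ p ∈ PS z y, (1 - ((∑ j, R8 p j : ℕ) : ℝ) / p) ≤ C / (Real.log y) ^ 7 := by
  choose C hC using low_R8 z
  refine ⟨Real.exp (∑ j, C j), Real.exp_pos _, fun y hy hzy => ?_⟩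
  have hyr : (3 : ℝ) ≤ y := by exact_mod_cast hy
  have hl1 : 1 < Real.log y := by
    rw [Real.lt_log_iff_exp_lt (by linarith)]
    have := Real.exp_one_lt_d9
    linarith
  have h1 : ∏ p ∈ PS z y, (1 - ((∑ j, R8 p j : ℕ) : ℝ) / p) ≤
      ∏ p ∈ PS z y, Real.exp (-(((∑ j, R8 p j : ℕ) : ℝ) / p)) := by
    apply prod_le_prod
    · intro p hp
      have hp' := (mem_PS.1 hp).1.1
      have hp0 : (0 : ℝ) < p := by exact_mod_cast (mem_PS.1 hp).2.pos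
      have h10 := sum_R8_le (mem_PS.1 hp).2 (by omega)
      have hcp : ((∑ j, R8 p j : ℕ) : ℝ) ≤ p := by exact_mod_cast (by omega : ∑ j, R8 p j ≤ p)
      rw [sub_nonneg, div_le_one hp0]
      exact hcp
    · intro p _
      have := Real.add_one_le_exp (-(((∑ j, R8 p j : ℕ) : ℝ) / p))
      linarith
  refine h1.trans ?_
  rw [← Real.exp_sum, sum_neg_distrib]
  have h2 : ∑ p ∈ PS z y, ((∑ j, R8 p j : ℕ) : ℝ) / p = ∑ j, ∑ p ∈ PS z y, (R8 p j : ℝ) / p := by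
    rw [sum_comm]
    refine sum_congr rfl fun p _ => ?_
    rw [Nat.cast_sum, sum_div]
  rw [h2]
  have h3 : ∑ j : Fin 7, (Real.log (Real.log y) - C j) ≤
      ∑ j, ∑ p ∈ PS z y, (R8 p j : ℝ) / p := sum_le_sum fun j _ => hC j y hy hzy
  rw [sum_sub_distrib, sum_const, card_univ, Fintype.card_fin, nsmul_eq_mul] at h3
  push_cast at h3
  have h4 : Real.log y ^ 7 = Real.exp (7 * Real.log (Real.log y)) := by
    rw [show (7 : ℝ) * Real.log (Real.log y) = ((7 : ℕ) : ℝ) * Real.log (Real.log y) by norm_num,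
      ← Real.log_pow, Real.exp_log (by positivity)]
  rw [h4, ← Real.exp_sub]
  apply Real.exp_le_exp.2
  linarith

end Pool.Agent.V7H54.C8
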