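import Mathlib
import Pool.Agent.V7H54.C8.Alg

/-!
# The seven forms of the `Z/2 x Z/8` parametrisation: number of roots modulo `p`
-/

set_option autoImplicit false

namespace Pool.Agent.V7H54.C8

open Finset

/-- the number of square roots of `D` modulo `p` -/
def r2 (D : ℤ) (p : ℕ) : ℕ := ((range p).filter (fun a : ℕ => (p : ℤ) ∣ (a : ℤ) ^ 2 - D)).card

/-- the number of roots of the forms modulo `p` -/
def R8 (p : ℕ) : Fin 7 → ℕ := ![1, 1, 1, 1, r2 2 p, r2 2 p, r2 (-1) p]

section
variable {p : ℕ} [Fact p.Prime]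

lemma card_zmod (P : ZMod p → Prop) [DecidablePred P] :
    ((range p).filter (fun n : ℕ => P (n : ZMod p))).card = (univ.filter P).card := by
  apply card_nbij' (fun n : ℕ => (n : ZMod p)) (fun a : ZMod p => a.val)
  · intro n hn
    simp only [coe_filter, mem_range, Set.mem_ofPred_eq] at hn
    simp only [coe_filter, mem_univ, true_and, Set.mem_ofPred_eq]
    exact hn.2
  · intro a ha
    simp only [coe_filter, mem_univ, true_and, Set.mem_ofPred_eq] at ha
    simp only [coe_filter, mem_range, Set.mem_ofPred_eq]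
    refine ⟨ZMod.val_lt a, ?_⟩
    rw [ZMod.natCast_zmod_val]
    exact ha
  · intro n hn
    simp only [coe_filter, mem_range, Set.mem_ofPred_eq] at hn
    exact ZMod.val_cast_of_lt hn.1
  · intro a _
    exact ZMod.natCast_zmod_val a

lemma card_aff (α β : ZMod p) (hα : α ≠ 0) (P Q : ZMod p → Prop) [DecidablePred P]
    [DecidablePred Q] (h : ∀ x, P x ↔ Q (α * x + β)) :
    (univ.filter P).card = (univ.filter Q).card := by
  apply card_bijective (fun x => α * x + β)
  · constructor
    · intro x y hxy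
      simp only at hxy
      exact mul_left_cancel₀ hα (add_right_cancel hxy)
    · intro y
      refine ⟨α⁻¹ * (y - β), ?_⟩
      simp only
      rw [← mul_assoc, mul_inv_cancel₀ hα]
      ring
  · intro x
    simp only [mem_filter, mem_univ, true_and]
    exact h x

lemma quad_iff {K : Type} [Field K] {κ g α β t x D : K} (hκ : κ ≠ 0) (ht : t ≠ 0)
    (h : κ * g = (α * x + β * t) ^ 2 - D * t ^ 2) : g = 0 ↔ (α / t * x + β) ^ 2 = D := by
  have e : α / t * x + β = (α * x + β * t) / t := by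
    field_simp
  rw [e, div_pow, div_eq_iff (pow_ne_zero 2 ht), ← sub_eq_zero (a := (α * x + β * t) ^ 2), ← h,
    mul_eq_zero]
  exact ⟨fun h => Or.inr h, fun h => h.resolve_left hκ⟩

lemma r2_eq (D : ℤ) : r2 D p = (univ.filter (fun y : ZMod p => y ^ 2 = (D : ZMod p))).card := by
  rw [← card_zmod]
  unfold r2
  congr 1
  apply filter_congr
  intro a _
  rw [← ZMod.intCast_zmod_eq_zero_iff_dvd]
  push_cast
  rw [sub_eq_zero]

lemma r2_jac (hp2 : p ≠ 2) (D : ℤ) : (r2 D p : ℤ) = 1 + jacobiSym D p := by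
  rw [r2_eq, ← jacobiSym.legendreSym.to_jacobiSym p]
  have h := legendreSym.card_sqrts p hp2 D
  rw [add_comm, ← h]
  congr 2
  ext x
  simp

/-- the number of roots of the form `j` -/
lemma root_card (hp : 7 < p) {E t : ZMod p} (hE : E = 1 ∨ E = -1) (ht : t ≠ 0) (j : Fin 7) :
    (univ.filter (fun x : ZMod p => g8 x (E * t + 2 * x) j = 0)).card = R8 p j := by
  have hnum : ∀ n : ℕ, 0 < n → n ≤ 7 → ((n : ℕ) : ZMod p) ≠ 0 := by
    intro n h1 h2 h
    rw [ZMod.natCast_eq_zero_iff] at h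
    have := Nat.le_of_dvd h1 h
    omega
  have h2 : (2 : ZMod p) ≠ 0 := by exact_mod_cast hnum 2 (by norm_num) (by norm_num)
  have h3 : (3 : ZMod p) ≠ 0 := by exact_mod_cast hnum 3 (by norm_num) (by norm_num)
  have h5 : (5 : ZMod p) ≠ 0 := by exact_mod_cast hnum 5 (by norm_num) (by norm_num)
  have h7 : (7 : ZMod p) ≠ 0 := by exact_mod_cast hnum 7 (by norm_num) (by norm_num)
  have hEE : E * E = 1 := by
    rcases hE with h | h <;> rw [h] <;> ring
  have hone : (univ.filter (fun y : ZMod p => y = 0)).card = 1 := by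
    rw [filter_eq' univ (0 : ZMod p)]
    simp
  have lin : ∀ (α β : ZMod p) (hα : α ≠ 0) (j : Fin 7),
      (∀ x, g8 x (E * t + 2 * x) j = α * x + β) →
      (univ.filter (fun x : ZMod p => g8 x (E * t + 2 * x) j = 0)).card = 1 := by
    intro α β hα j h
    refine Eq.trans ?_ hone
    apply card_aff α β hα
    intro x
    rw [h x]
  have qua : ∀ (κ α β : ZMod p) (D : ℤ) (hκ : κ ≠ 0) (hα : α ≠ 0) (j : Fin 7),
      (∀ x, κ * g8 x (E * t + 2 * x) j = (α * x + β * t) ^ 2 - D * t ^ 2) →
      (univ.filter (fun x : ZMod p => g8 x (E * t + 2 * x) j = 0)).card = r2 D p := by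
    intro κ α β D hκ hα j h
    rw [r2_eq]
    apply card_aff (α / t) β (div_ne_zero hα ht)
    intro x
    exact quad_iff hκ ht (h x)
  fin_cases j
  · exact lin 1 0 one_ne_zero 0 (fun x => by simp [g8])
  · exact lin 2 (E * t) h2 1 (fun x => by simp [g8]; ring)
  · exact lin (-1) (-(E * t)) (by simp) 2 (fun x => by simp [g8]; ring)
  · exact lin 3 (E * t) h3 3 (fun x => by simp [g8]; ring)
  · exact qua (-7) 7 (3 * E) 2 (neg_ne_zero.2 h7) h7 4 (fun x => by
      simp [g8]; linear_combination (-2 * t ^ 2) * hEE)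
  · exact qua 1 1 (-E) 2 one_ne_zero one_ne_zero 5 (fun x => by
      simp [g8]; linear_combination (-2 * t ^ 2) * hEE)
  · exact qua 5 5 (2 * E) (-1) h5 h5 6 (fun x => by
      simp [g8]; linear_combination (t ^ 2) * hEE)

/-- the number of residues that are a root of one of the forms -/
lemma nu_card (hp : 7 < p) {E t : ZMod p} (hE : E = 1 ∨ E = -1) (ht : t ≠ 0) :
    (univ.filter (fun x : ZMod p => ∃ j, g8 x (E * t + 2 * x) j = 0)).card = ∑ j, R8 p j := by
  have h2 : (2 : ZMod p) ≠ 0 := by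
    intro h
    have h' : ((2 : ℕ) : ZMod p) = 0 := by exact_mod_cast h
    rw [ZMod.natCast_eq_zero_iff] at h'
    have := Nat.le_of_dvd (by norm_num) h'
    omega
  have hE0 : E ≠ 0 := by
    rcases hE with h | h <;> rw [h] <;> simp
  have e : (univ.filter (fun x : ZMod p => ∃ j, g8 x (E * t + 2 * x) j = 0)) =
      univ.biUnion (fun j => univ.filter (fun x : ZMod p => g8 x (E * t + 2 * x) j = 0)) := by
    ext x
    simp
  rw [e, card_biUnion]
  · exact sum_congr rfl fun j _ => root_card hp hE ht j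
  · intro j _ l _ hjl
    rw [Function.onFun, disjoint_left]
    intro x hj hl
    simp only [mem_filter, mem_univ, true_and] at hj hl
    apply hjl
    refine uniq h2 ?_ hj hl
    rintro ⟨hx, hy⟩
    rw [hx, mul_zero, add_zero] at hy
    exact (mul_ne_zero hE0 ht) hy

end

lemma R8_eq {p : ℕ} (hpp : p.Prime) (hp2 : p ≠ 2) (j : Fin 7) : (R8 p j : ℤ) = 1 + jacobiSym (D8 j) p := by
  have : Fact p.Prime := ⟨hpp⟩
  have h0 : jacobiSym 0 p = 0 := by
    apply jacobiSym.zero_left
    exact hpp.one_lt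
  fin_cases j
  · simp [R8, D8, h0]
  · simp [R8, D8, h0]
  · simp [R8, D8, h0]
  · simp [R8, D8, h0]
  · exact r2_jac hp2 2
  · exact r2_jac hp2 2
  · exact r2_jac hp2 (-1)

lemma R8_le {p : ℕ} (hpp : p.Prime) (hp2 : p ≠ 2) (j : Fin 7) : R8 p j ≤ 2 := by
  have h := R8_eq hpp hp2 j
  rcases jacobiSym.trichotomy (D8 j) p with h1 | h1 | h1 <;> rw [h1] at h <;> omega

lemma sum_R8_le {p : ℕ} (hpp : p.Prime) (hp2 : p ≠ 2) : ∑ j, R8 p j ≤ 10 := by
  have h4 := R8_le hpp hp2 4
  have h5 := R8_le hpp hp2 5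
  have h6 := R8_le hpp hp2 6
  simp only [Fin.sum_univ_succ, R8] at *
  simp at *
  omega

end Pool.Agent.V7H54.C8
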